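import Mathlib

set_option autoImplicit false

namespace Pool.Agent.Odious24

open Finset

/-- The Thue-Morse sign, +1 for evil and -1 for odious numbers. -/
def tmz (n : ℕ) : ℤ := (-1) ^ (Nat.digits 2 n).sum

theorem tmz_zero : tmz 0 = 1 := by simp [tmz]

theorem tmz_two_mul (n : ℕ) : tmz (2 * n) = tmz n := by
  rcases Nat.eq_zero_or_pos n with h | h
  · subst h; simp
  · unfold tmz
    rw [Nat.digits_def' (by norm_num) (by omega : 0 < 2 * n)]
    simp

theorem tmz_two_mul_add_one (n : ℕ) : tmz (2 * n + 1) = - tmz n := by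
  unfold tmz
  rw [Nat.digits_def' (by norm_num) (by omega : 0 < 2 * n + 1)]
  have h1 : (2 * n + 1) % 2 = 1 := by omega
  have h2 : (2 * n + 1) / 2 = n := by omega
  rw [h1, h2, List.sum_cons, pow_add]
  ring

theorem tmz_one : tmz 1 = -1 := by
  have h := tmz_two_mul_add_one 0
  simpa [tmz_zero] using h

theorem tmz_eq_or (n : ℕ) : tmz n = 1 ∨ tmz n = -1 := by
  unfold tmz
  exact neg_one_pow_eq_or ℤ _

theorem norm_tmz (n : ℕ) : ‖((tmz n : ℤ) : ℂ)‖ = 1 := by
  rcases tmz_eq_or n with h | h <;> simp [h]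

/-- e(x) = exp(2 pi i x) -/
noncomputable def ee (x : ℝ) : ℂ := Complex.exp (((2 * Real.pi * x : ℝ) : ℂ) * Complex.I)

theorem ee_add (x y : ℝ) : ee (x + y) = ee x * ee y := by
  unfold ee
  rw [← Complex.exp_add]
  congr 1
  push_cast
  ring

theorem ee_zero : ee 0 = 1 := by simp [ee]

theorem norm_ee (x : ℝ) : ‖ee x‖ = 1 := by
  unfold ee
  exact Complex.norm_exp_ofReal_mul_I _

theorem ee_int (n : ℤ) : ee (n : ℝ) = 1 := by
  unfold ee
  rw [Complex.exp_eq_one_iff]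
  exact ⟨n, by push_cast; ring⟩

theorem ee_nat (n : ℕ) : ee (n : ℝ) = 1 := by
  have h := ee_int (n : ℤ)
  simpa using h

theorem ee_one : ee 1 = 1 := by
  have h := ee_nat 1
  simpa using h

theorem ee_nat_mul (n : ℕ) (x : ℝ) : ee ((n : ℝ) * x) = ee x ^ n := by
  induction n with
  | zero => simp [ee_zero]
  | succ n ih =>
    rw [pow_succ, ← ih, ← ee_add]
    congr 1
    push_cast
    ring

/-- the full dyadic sum -/
noncomputable def TT (k : ℕ) (x : ℝ) : ℂ := ∑ n ∈ range (2 ^ k), ((tmz n : ℤ) : ℂ) * ee (n * x)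

/-- the partial sum -/
noncomputable def SS (N : ℕ) (x : ℝ) : ℂ := ∑ n ∈ range N, ((tmz n : ℤ) : ℂ) * ee (n * x)

theorem sum_range_two_mul {M : Type*} [AddCommMonoid M] (f : ℕ → M) (N : ℕ) :
    ∑ n ∈ range (2 * N), f n = ∑ n ∈ range N, (f (2 * n) + f (2 * n + 1)) := by
  induction N with
  | zero => simp
  | succ N ih =>
    rw [show 2 * (N + 1) = 2 * N + 1 + 1 by ring, sum_range_succ, sum_range_succ, ih,
      sum_range_succ, add_assoc]

theorem SS_two_mul (N : ℕ) (x : ℝ) : SS (2 * N) x = (1 - ee x) * SS N (2 * x) := by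
  unfold SS
  rw [sum_range_two_mul, mul_sum]
  apply sum_congr rfl
  intro n _
  rw [tmz_two_mul, tmz_two_mul_add_one]
  have h1 : ee (((2 * n : ℕ) : ℝ) * x) = ee (n * (2 * x)) := by
    congr 1; push_cast; ring
  have h2 : ee (((2 * n + 1 : ℕ) : ℝ) * x) = ee (n * (2 * x)) * ee x := by
    rw [← ee_add]; congr 1; push_cast; ring
  rw [h1, h2]
  push_cast
  ring

theorem TT_eq_SS (k : ℕ) (x : ℝ) : TT k x = SS (2 ^ k) x := rfl

theorem TT_zero (x : ℝ) : TT 0 x = 1 := by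
  simp [TT, tmz_zero, ee_zero]

theorem TT_succ (k : ℕ) (x : ℝ) : TT (k + 1) x = (1 - ee x) * TT k (2 * x) := by
  rw [TT_eq_SS, TT_eq_SS, pow_succ, mul_comm (2 ^ k) 2, SS_two_mul]

theorem TT_add (j k : ℕ) (x : ℝ) : TT (j + k) x = TT j x * TT k (2 ^ j * x) := by
  induction j generalizing x with
  | zero => simp [TT_zero]
  | succ j ih =>
    rw [show j + 1 + k = (j + k) + 1 by ring, TT_succ, TT_succ, ih,
      show (2 : ℝ) ^ j * (2 * x) = 2 ^ (j + 1) * x by ring]
    ring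

theorem SS_bound (k : ℕ) : ∀ (N : ℕ) (x : ℝ), N < 2 ^ k →
    ‖SS N x‖ ≤ ∑ j ∈ range (k + 1), ‖TT j x‖ := by
  induction k with
  | zero =>
    intro N x h
    have h0 : N = 0 := by simpa using h
    subst h0
    simp [SS]
  | succ k ih =>
    intro N x h
    have h1 : N / 2 < 2 ^ k := by
      rw [pow_succ] at h
      omega
    have h2 := ih (N / 2) (2 * x) h1
    rw [sum_range_succ' (fun j => ‖TT j x‖) (k + 1), TT_zero]
    have h3 : ∑ j ∈ range (k + 1), ‖TT (j + 1) x‖ = ‖1 - ee x‖ * ∑ j ∈ range (k + 1), ‖TT j (2 * x)‖ := by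
      rw [mul_sum]
      apply sum_congr rfl
      intro j _
      rw [TT_succ, norm_mul]
    rw [h3]
    have h4 : ‖SS N x‖ ≤ ‖SS (2 * (N / 2)) x‖ + 1 := by
      rcases Nat.mod_two_eq_zero_or_one N with h | h
      · have : 2 * (N / 2) = N := by omega
        rw [this]
        linarith
      · have h5 : N = 2 * (N / 2) + 1 := by omega
        have h6 : SS N x = SS (2 * (N / 2)) x + ((tmz (2 * (N / 2)) : ℤ) : ℂ) * ee ((2 * (N / 2) : ℕ) * x) := by
          conv_lhs => rw [h5]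
          unfold SS
          rw [sum_range_succ]
        rw [h6]
        refine (norm_add_le _ _).trans ?_
        rw [norm_mul, norm_tmz, norm_ee]
        norm_num
    rw [SS_two_mul, norm_mul] at h4
    have h5 := mul_le_mul_of_nonneg_left h2 (norm_nonneg (1 - ee x))
    rw [norm_one]
    linarith

/-- y(x) = |1 - e(x)|^2 -/
noncomputable def yy (x : ℝ) : ℝ := 4 * Real.sin (Real.pi * x) ^ 2

theorem norm_one_sub_ee_sq (x : ℝ) : ‖1 - ee x‖ ^ 2 = yy x := by
  unfold ee yy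
  rw [Complex.exp_mul_I, ← Complex.ofReal_cos, ← Complex.ofReal_sin, ← Complex.normSq_eq_norm_sq,
    Complex.normSq_apply]
  simp only [Complex.sub_re, Complex.one_re, Complex.add_re, Complex.ofReal_re, Complex.mul_re,
    Complex.ofReal_im, Complex.I_re, Complex.I_im, Complex.sub_im, Complex.one_im, Complex.add_im,
    Complex.mul_im]
  have h1 : 2 * Real.pi * x = 2 * (Real.pi * x) := by ring
  rw [h1, Real.cos_two_mul, Real.sin_two_mul]
  have h2 := Real.sin_sq_add_cos_sq (Real.pi * x)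
  have h3 : Real.cos (Real.pi * x) ^ 2 = 1 - Real.sin (Real.pi * x) ^ 2 := by linarith
  have h4 : (Real.cos (Real.pi * x)) ^ 4 = (1 - Real.sin (Real.pi * x) ^ 2) ^ 2 := by
    rw [← h3]; ring
  nlinarith [h2, h3, h4]

theorem yy_nonneg (x : ℝ) : 0 ≤ yy x := by unfold yy; positivity

theorem yy_le (x : ℝ) : yy x ≤ 4 := by
  unfold yy
  have := Real.sin_sq_le_one (Real.pi * x)
  linarith

theorem yy_two_mul (x : ℝ) : yy (2 * x) = yy x * (4 - yy x) := by
  unfold yy
  have h1 : Real.pi * (2 * x) = 2 * (Real.pi * x) := by ring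
  rw [h1, Real.sin_two_mul]
  have h2 := Real.sin_sq_add_cos_sq (Real.pi * x)
  have h3 : Real.cos (Real.pi * x) ^ 2 = 1 - Real.sin (Real.pi * x) ^ 2 := by linarith
  rw [mul_pow, mul_pow, h3]
  ring

/-- the block factor -/
noncomputable def hh (x : ℝ) : ℝ := yy x ^ 2 * yy (2 * x)

theorem hh_nonneg (x : ℝ) : 0 ≤ hh x := by
  unfold hh
  have := yy_nonneg (2 * x)
  positivity

theorem hh_le (x : ℝ) : hh x ≤ 27 := by
  unfold hh
  rw [yy_two_mul]
  have h0 := yy_nonneg x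
  nlinarith [mul_nonneg (sq_nonneg (yy x - 3)) (by positivity : (0:ℝ) ≤ yy x ^ 2 + 2 * yy x + 3)]

theorem hh_le_of_far (x : ℝ) (h : 1 / 2 ≤ |yy x - 3|) : hh x ≤ 27 * (35 / 36) := by
  unfold hh
  rw [yy_two_mul]
  have h0 := yy_nonneg x
  have h1 : 1 / 4 ≤ (yy x - 3) ^ 2 := by
    rw [← sq_abs]
    nlinarith [abs_nonneg (yy x - 3)]
  have h2 : (3 : ℝ) ≤ yy x ^ 2 + 2 * yy x + 3 := by nlinarith
  have h3 : (1 / 4 : ℝ) * 3 ≤ (yy x - 3) ^ 2 * (yy x ^ 2 + 2 * yy x + 3) :=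
    mul_le_mul h1 h2 (by norm_num) (sq_nonneg _)
  nlinarith

theorem grow (x : ℝ) (h : |yy x - 3| < 1 / 2) : 3 / 2 * |yy x - 3| ≤ |yy (2 * x) - 3| := by
  rw [yy_two_mul]
  have h1 : yy x * (4 - yy x) - 3 = -((yy x - 1) * (yy x - 3)) := by ring
  rw [h1, abs_neg, abs_mul]
  have h2 : 5 / 2 < yy x := by
    have := (abs_lt.mp h).1
    linarith
  have h3 : 3 / 2 ≤ |yy x - 1| := by
    rw [abs_of_nonneg (by linarith)]
    linarith
  exact mul_le_mul_of_nonneg_right h3 (abs_nonneg _)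

/-- the squared modulus as a product -/
theorem norm_TT_sq (k : ℕ) (x : ℝ) : ‖TT k x‖ ^ 2 = ∏ i ∈ range k, yy (2 ^ i * x) := by
  induction k generalizing x with
  | zero => simp [TT_zero]
  | succ k ih =>
    rw [TT_succ, norm_mul, mul_pow, norm_one_sub_ee_sq, ih, prod_range_succ']
    rw [mul_comm]
    congr 1
    · apply prod_congr rfl
      intro i _
      congr 1
      ring
    · simp

/-- the cube of the product, rearranged -/
theorem norm_TT_six (k : ℕ) (x : ℝ) :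
    ‖TT (k + 1) x‖ ^ 6 = yy x * (∏ i ∈ range k, hh (2 ^ i * x)) * yy (2 ^ k * x) ^ 2 := by
  have h : ‖TT (k + 1) x‖ ^ 6 = (‖TT (k + 1) x‖ ^ 2) ^ 3 := by ring
  rw [h, norm_TT_sq]
  clear h
  induction k with
  | zero => simp; ring
  | succ k ih =>
    rw [prod_range_succ, mul_pow, ih, prod_range_succ (fun i => hh (2 ^ i * x))]
    unfold hh
    have h1 : (2 : ℝ) * (2 ^ k * x) = 2 ^ (k + 1) * x := by ring
    rw [h1]
    ring

end Pool.Agent.Odious24
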