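import Mathlib
import Pool.Agent.Helper24.Odious.Core

set_option autoImplicit false

namespace Pool.Agent.Odious24

open Finset

theorem abs_sin_ge (N : ℤ) (M : ℕ) (hM : 0 < M) (h : ¬ ((M : ℤ) ∣ N)) :
    2 / (M : ℝ) ≤ |Real.sin (Real.pi * ((N : ℝ) / M))| := by
  have hM' : (0 : ℝ) < M := by exact_mod_cast hM
  set x : ℝ := (N : ℝ) / M with hx
  have h1 : |Real.sin (Real.pi * x)| = |Real.sin (Real.pi * (x - round x))| := by
    have h2 : Real.pi * (x - round x) = Real.pi * x - (round x : ℤ) * Real.pi := by ring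
    rw [h2, Real.sin_sub_int_mul_pi, abs_mul]
    have h3 : |((-1 : ℝ)) ^ (round x)| = 1 := by
      rw [abs_zpow]; simp
    rw [h3, one_mul]
  have h2 : |x - round x| ≤ 1 / 2 := abs_sub_round x
  have hpi := Real.pi_pos
  have h3 : |Real.pi * (x - round x)| ≤ Real.pi / 2 := by
    rw [abs_mul, abs_of_pos hpi]
    nlinarith
  have h4 := Real.mul_abs_le_abs_sin h3
  have h5 : 2 / Real.pi * |Real.pi * (x - round x)| = 2 * |x - round x| := by
    rw [abs_mul, abs_of_pos hpi]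
    field_simp
  rw [h5] at h4
  have h6 : 1 / (M : ℝ) ≤ |x - round x| := by
    have h7 : (M : ℝ) * (x - round x) = ((N - M * round x : ℤ) : ℝ) := by
      rw [hx]; push_cast; field_simp
    have h8 : N - M * round x ≠ 0 := by
      intro h9
      apply h
      exact ⟨round x, by linarith⟩
    have h9 : (1 : ℝ) ≤ |((N - M * round x : ℤ) : ℝ)| := by
      rw [← Int.cast_abs]
      exact_mod_cast Int.one_le_abs h8
    rw [← h7, abs_mul, abs_of_pos hM'] at h9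
    rw [div_le_iff₀ hM']
    linarith
  rw [h1]
  have h10 : 2 / (M : ℝ) = 2 * (1 / M) := by ring
  rw [h10]
  linarith

theorem abs_yy_sub_three (x : ℝ) : |Real.sin (Real.pi * (3 * x))| ≤ |yy x - 3| := by
  have h1 : Real.pi * (3 * x) = 3 * (Real.pi * x) := by ring
  rw [h1, Real.sin_three_mul]
  unfold yy
  have h2 : 3 * Real.sin (Real.pi * x) - 4 * Real.sin (Real.pi * x) ^ 3 =
      -(4 * Real.sin (Real.pi * x) ^ 2 - 3) * Real.sin (Real.pi * x) := by ring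
  rw [h2, abs_mul, abs_neg]
  have h3 := Real.abs_sin_le_one (Real.pi * x)
  nlinarith [abs_nonneg (4 * Real.sin (Real.pi * x) ^ 2 - 3)]

theorem far_of_rational (d : ℕ) (hd : 0 < d) (hc : Nat.Coprime d 6) (a b : ℤ) (ha : ¬ ((d : ℤ) ∣ a)) :
    1 / (d : ℝ) ≤ |yy ((a : ℝ) / d + b / 6) - 3| := by
  refine le_trans ?_ (abs_yy_sub_three _)
  have hd' : (0 : ℝ) < d := by exact_mod_cast hd
  have h1 : 3 * ((a : ℝ) / d + b / 6) = ((6 * a + b * d : ℤ) : ℝ) / ((2 * d : ℕ) : ℝ) := by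
    push_cast
    field_simp
    ring
  rw [h1]
  have h2 : ¬ (((2 * d : ℕ) : ℤ) ∣ (6 * a + b * d)) := by
    intro h3
    apply ha
    have h4 : (d : ℤ) ∣ 6 * a + b * d := Dvd.dvd.trans ⟨2, by push_cast; ring⟩ h3
    have h5 : (d : ℤ) ∣ 6 * a := (Int.dvd_add_left (Dvd.intro_left b rfl)).mp h4
    have h6 : IsCoprime (d : ℤ) 6 := by
      have := Nat.isCoprime_iff_coprime.mpr hc
      exact_mod_cast this
    exact h6.dvd_of_dvd_mul_left h5
  have h3 := abs_sin_ge (6 * a + b * d) (2 * d) (by omega) h2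
  have h4 : 2 / ((2 * d : ℕ) : ℝ) = 1 / d := by
    push_cast
    field_simp
  rw [h4] at h3
  exact h3

theorem far_iter (d : ℕ) (hd : 0 < d) (hc : Nat.Coprime d 6) (a b : ℤ) (ha : ¬ ((d : ℤ) ∣ a)) (i : ℕ) :
    1 / (d : ℝ) ≤ |yy (2 ^ i * ((a : ℝ) / d + b / 6)) - 3| := by
  have h1 : (2 : ℝ) ^ i * ((a : ℝ) / d + b / 6) = ((2 ^ i * a : ℤ) : ℝ) / d + ((2 ^ i * b : ℤ) : ℝ) / 6 := by
    push_cast
    ring
  rw [h1]
  apply far_of_rational d hd hc
  intro h2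
  apply ha
  have h3 : IsCoprime (d : ℤ) 2 := by
    have h4 : Nat.Coprime d 2 := Nat.Coprime.coprime_dvd_right (by norm_num) hc
    have := Nat.isCoprime_iff_coprime.mpr h4
    exact_mod_cast this
  exact (h3.pow_right).dvd_of_dvd_mul_left h2

theorem grow_iter (x : ℝ) (w : ℕ) (h : ∀ j, j < w → |yy (2 ^ j * x) - 3| < 1 / 2) :
    (3 / 2) ^ w * |yy x - 3| ≤ |yy (2 ^ w * x) - 3| := by
  induction w with
  | zero => simp
  | succ w ih =>
    have h1 := ih (fun j hj => h j (by omega))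
    have h2 := grow (2 ^ w * x) (h w (by omega))
    have h3 : (2 : ℝ) * (2 ^ w * x) = 2 ^ (w + 1) * x := by ring
    rw [h3] at h2
    rw [pow_succ]
    nlinarith

theorem window (x : ℝ) (d w : ℕ) (hd : 0 < d) (hw : (d : ℝ) ≤ (3 / 2) ^ w)
    (hx : ∀ i : ℕ, 1 / (d : ℝ) ≤ |yy (2 ^ i * x) - 3|) (i : ℕ) :
    ∃ j, j < w + 1 ∧ 1 / 2 ≤ |yy (2 ^ (i + j) * x) - 3| := by
  by_contra hcon
  push Not at hcon
  have hd' : (0 : ℝ) < d := by exact_mod_cast hd
  have h1 := grow_iter (2 ^ i * x) w (by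
    intro j hj
    have := hcon j (by omega)
    have h2 : (2 : ℝ) ^ j * (2 ^ i * x) = 2 ^ (i + j) * x := by ring
    rw [h2]
    exact this)
  have h2 := hcon w (by omega)
  have h3 : (2 : ℝ) ^ w * (2 ^ i * x) = 2 ^ (i + w) * x := by ring
  rw [h3] at h1
  have h4 := hx i
  have h5 : 1 ≤ (3 / 2) ^ w * |yy (2 ^ i * x) - 3| := by
    have h6 : (d : ℝ) * (1 / d) = 1 := by field_simp
    rw [← h6]
    exact mul_le_mul hw h4 (by positivity) (by positivity)
  linarith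

theorem window_prod (x : ℝ) (d w : ℕ) (hd : 0 < d) (hw : (d : ℝ) ≤ (3 / 2) ^ w)
    (hx : ∀ i : ℕ, 1 / (d : ℝ) ≤ |yy (2 ^ i * x) - 3|) (i : ℕ) :
    ∏ j ∈ range (w + 1), hh (2 ^ (i + j) * x) ≤ 27 ^ (w + 1) * (35 / 36) := by
  obtain ⟨j0, hj0, hj1⟩ := window x d w hd hw hx i
  have h1 : ∏ j ∈ range (w + 1), hh (2 ^ (i + j) * x) ≤
      ∏ j ∈ range (w + 1), (27 * (if j = j0 then (35 / 36 : ℝ) else 1)) := by
    apply prod_le_prod
    · intro j _; exact hh_nonneg _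
    · intro j _
      by_cases h : j = j0
      · subst h
        simp only [if_true]
        exact hh_le_of_far _ hj1
      · simp only [h, if_false, mul_one]
        exact hh_le _
  refine h1.trans (le_of_eq ?_)
  rw [prod_mul_distrib, prod_const, card_range, prod_ite_eq' (range (w + 1)) j0 (fun _ => (35 / 36 : ℝ))]
  simp [mem_range.mpr hj0]

theorem prod_hh_le (x : ℝ) (d w : ℕ) (hd : 0 < d) (hw : (d : ℝ) ≤ (3 / 2) ^ w)
    (hx : ∀ i : ℕ, 1 / (d : ℝ) ≤ |yy (2 ^ i * x) - 3|) (k : ℕ) :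
    ∏ j ∈ range k, hh (2 ^ j * x) ≤ 27 ^ k * (35 / 36) ^ (k / (w + 1)) := by
  have h1 : ∀ q : ℕ, ∏ j ∈ range (q * (w + 1)), hh (2 ^ j * x) ≤ 27 ^ (q * (w + 1)) * (35 / 36) ^ q := by
    intro q
    induction q with
    | zero => simp
    | succ q ih =>
      rw [show (q + 1) * (w + 1) = q * (w + 1) + (w + 1) by ring, prod_range_add]
      have h2 := window_prod x d w hd hw hx (q * (w + 1))
      calc _ ≤ (27 ^ (q * (w + 1)) * (35 / 36) ^ q) * (27 ^ (w + 1) * (35 / 36) : ℝ) := by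
            apply mul_le_mul ih h2
            · exact prod_nonneg (fun j _ => hh_nonneg _)
            · positivity
        _ = _ := by rw [pow_add, pow_succ (35 / 36 : ℝ) q]; ring
  set q := k / (w + 1) with hq
  have hk : k = q * (w + 1) + k % (w + 1) := by
    rw [hq, mul_comm]
    exact (Nat.div_add_mod k (w + 1)).symm
  have h2 : ∏ j ∈ range k, hh (2 ^ j * x) = (∏ j ∈ range (q * (w + 1)), hh (2 ^ j * x)) *
      ∏ j ∈ range (k % (w + 1)), hh (2 ^ (q * (w + 1) + j) * x) := by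
    conv_lhs => rw [hk]
    rw [prod_range_add]
  have h3 : ∏ j ∈ range (k % (w + 1)), hh (2 ^ (q * (w + 1) + j) * x) ≤ 27 ^ (k % (w + 1)) := by
    have h4 : ∏ j ∈ range (k % (w + 1)), hh (2 ^ (q * (w + 1) + j) * x) ≤ ∏ j ∈ range (k % (w + 1)), (27 : ℝ) :=
      prod_le_prod (fun j _ => hh_nonneg _) (fun j _ => hh_le _)
    simpa using h4
  rw [h2]
  calc _ ≤ (27 ^ (q * (w + 1)) * (35 / 36) ^ q) * (27 ^ (k % (w + 1)) : ℝ) := by
        apply mul_le_mul (h1 q) h3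
        · exact prod_nonneg (fun j _ => hh_nonneg _)
        · positivity
    _ = 27 ^ k * (35 / 36) ^ q := by
        conv_rhs => rw [hk, pow_add]
        ring

theorem prod_hh_le' (x : ℝ) (k : ℕ) : ∏ j ∈ range k, hh (2 ^ j * x) ≤ 27 ^ k := by
  have h4 : ∏ j ∈ range k, hh (2 ^ j * x) ≤ ∏ j ∈ range k, (27 : ℝ) :=
    prod_le_prod (fun j _ => hh_nonneg _) (fun j _ => hh_le _)
  simpa using h4

theorem sqrt3_six (k : ℕ) : (Real.sqrt 3 ^ k) ^ 6 = 27 ^ k := by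
  rw [← pow_mul, mul_comm, pow_mul]
  congr 1
  have h : Real.sqrt 3 ^ 2 = 3 := Real.sq_sqrt (by norm_num)
  have h2 : Real.sqrt 3 ^ 6 = (Real.sqrt 3 ^ 2) ^ 3 := by ring
  rw [h2, h]
  norm_num

/-- the general sup bound -/
theorem norm_TT_le (k : ℕ) (x : ℝ) : ‖TT k x‖ ≤ 2 * Real.sqrt 3 ^ k := by
  have h0 : 0 ≤ 2 * Real.sqrt 3 ^ k := by positivity
  · rw [← pow_le_pow_iff_left₀ (norm_nonneg _) h0 (by norm_num : (6 : ℕ) ≠ 0)]
    rw [mul_pow, sqrt3_six]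
    cases k with
    | zero => rw [TT_zero]; norm_num
    | succ k =>
      rw [norm_TT_six]
      have h1 := yy_nonneg x
      have h2 := yy_le x
      have h3 := prod_hh_le' x k
      have h4 : 0 ≤ ∏ j ∈ range k, hh (2 ^ j * x) := prod_nonneg (fun j _ => hh_nonneg _)
      have h5 : yy (2 ^ k * x) ^ 2 ≤ 4 ^ 2 := pow_le_pow_left₀ (yy_nonneg _) (yy_le _) 2
      have h6 : yy x * (∏ i ∈ range k, hh (2 ^ i * x)) ≤ 4 * 27 ^ k := mul_le_mul h2 h3 h4 (by norm_num)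
      have h7 : yy x * (∏ i ∈ range k, hh (2 ^ i * x)) * yy (2 ^ k * x) ^ 2 ≤ (4 * 27 ^ k) * 4 ^ 2 :=
        mul_le_mul h6 h5 (by positivity) (by positivity)
      refine h7.trans ?_
      rw [pow_succ (27 : ℝ) k]
      have h8 : (0 : ℝ) < 27 ^ k := by positivity
      nlinarith

/-- the sup bound with loss -/
theorem norm_TT_loss (x : ℝ) (d w : ℕ) (hd : 0 < d) (hw : (d : ℝ) ≤ (3 / 2) ^ w)
    (hx : ∀ i : ℕ, 1 / (d : ℝ) ≤ |yy (2 ^ i * x) - 3|) (k : ℕ) :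
    ‖TT k x‖ ≤ 2 * Real.sqrt 3 ^ k * Real.exp (-(k : ℝ) / (216 * (w + 1))) := by
  have h0 : 0 ≤ 2 * Real.sqrt 3 ^ k * Real.exp (-(k : ℝ) / (216 * (w + 1))) := by positivity
  rw [← pow_le_pow_iff_left₀ (norm_nonneg _) h0 (by norm_num : (6 : ℕ) ≠ 0)]
  rw [mul_pow, mul_pow, sqrt3_six, ← Real.exp_nat_mul]
  have hexp : ((6 : ℕ) : ℝ) * (-(k : ℝ) / (216 * (w + 1))) = -((k : ℝ) / (w + 1)) / 36 := by
    push_cast
    field_simp
    ring
  rw [hexp]
  cases k with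
  | zero => rw [TT_zero]; norm_num
  | succ k =>
    rw [norm_TT_six]
    have h1 := yy_nonneg x
    have h2 := yy_le x
    have h3 := prod_hh_le x d w hd hw hx k
    have h4 : 0 ≤ ∏ j ∈ range k, hh (2 ^ j * x) := prod_nonneg (fun j _ => hh_nonneg _)
    have h5 : yy (2 ^ k * x) ^ 2 ≤ 4 ^ 2 := pow_le_pow_left₀ (yy_nonneg _) (yy_le _) 2
    have h6 : yy x * (∏ i ∈ range k, hh (2 ^ i * x)) ≤ 4 * (27 ^ k * (35 / 36) ^ (k / (w + 1))) :=
      mul_le_mul h2 h3 h4 (by norm_num)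
    have h7 : yy x * (∏ i ∈ range k, hh (2 ^ i * x)) * yy (2 ^ k * x) ^ 2 ≤
        (4 * (27 ^ k * (35 / 36) ^ (k / (w + 1)))) * 4 ^ 2 :=
      mul_le_mul h6 h5 (by positivity) (by positivity)
    refine h7.trans ?_
    have h8 : ((35 : ℝ) / 36) ^ (k / (w + 1)) ≤ Real.exp (-(1 / 36)) ^ (k / (w + 1)) := by
      apply pow_le_pow_left₀ (by norm_num)
      have := Real.add_one_le_exp (-(1 / 36 : ℝ))
      linarith
    have h9 : Real.exp (-(1 / 36)) ^ (k / (w + 1)) = Real.exp (-(((k / (w + 1) : ℕ) : ℝ)) / 36) := by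
      rw [← Real.exp_nat_mul]
      congr 1
      ring
    have h10 : ((k + 1 : ℕ) : ℝ) / (w + 1) - 1 ≤ ((k / (w + 1) : ℕ) : ℝ) := by
      have h11 : k + 1 ≤ (w + 1) * (k / (w + 1)) + (w + 1) := by
        have := Nat.div_add_mod k (w + 1)
        have := Nat.mod_lt k (by omega : 0 < w + 1)
        omega
      have h12 : ((k + 1 : ℕ) : ℝ) ≤ (w + 1) * ((k / (w + 1) : ℕ) : ℝ) + (w + 1) := by
        exact_mod_cast h11
      rw [sub_le_iff_le_add, div_le_iff₀ (by positivity)]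
      linarith
    have h11 : Real.exp (-(((k / (w + 1) : ℕ) : ℝ)) / 36) ≤
        27 * Real.exp (-(((k + 1 : ℕ) : ℝ) / (w + 1)) / 36) := by
      have h12 : Real.exp (-(((k / (w + 1) : ℕ) : ℝ)) / 36) ≤
          Real.exp (1 / 36 + -(((k + 1 : ℕ) : ℝ) / (w + 1)) / 36) := by
        apply Real.exp_le_exp.mpr
        linarith
      rw [Real.exp_add] at h12
      have h13 : Real.exp (1 / 36) ≤ 27 := by
        have h14 : Real.exp (1 / 36) ≤ Real.exp 1 := Real.exp_le_exp.mpr (by norm_num)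
        have := Real.exp_one_lt_d9
        linarith
      have h14 := Real.exp_pos (-(((k + 1 : ℕ) : ℝ) / (w + 1)) / 36)
      nlinarith
    have h12 : (0 : ℝ) < 27 ^ k := by positivity
    calc (4 * (27 ^ k * (35 / 36) ^ (k / (w + 1)))) * 4 ^ 2
        = 64 * 27 ^ k * (35 / 36) ^ (k / (w + 1)) := by ring
      _ ≤ 64 * 27 ^ k * (27 * Real.exp (-(((k + 1 : ℕ) : ℝ) / (w + 1)) / 36)) := by
          apply mul_le_mul_of_nonneg_left _ (by positivity)
          rw [h9] at h8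
          exact h8.trans h11
      _ = 2 ^ 6 * 27 ^ (k + 1) * Real.exp (-(((k + 1 : ℕ) : ℝ) / (w + 1)) / 36) := by
          rw [pow_succ (27 : ℝ) k]; ring

theorem window_length (d : ℕ) : (d : ℝ) ≤ (3 / 2) ^ (2 * Nat.log 2 d + 2) := by
  have h1 : d < 2 ^ (Nat.log 2 d + 1) := Nat.lt_pow_succ_log_self (by norm_num) d
  have h2 : (d : ℝ) ≤ 2 ^ (Nat.log 2 d + 1) := by exact_mod_cast h1.le
  refine h2.trans ?_
  rw [show 2 * Nat.log 2 d + 2 = 2 * (Nat.log 2 d + 1) by ring, pow_mul]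
  apply pow_le_pow_left₀ (by norm_num)
  norm_num

/-- The bound for rational points. -/
theorem norm_TT_rational (d : ℕ) (hd : 0 < d) (hc : Nat.Coprime d 6) (a b : ℤ) (ha : ¬ ((d : ℤ) ∣ a))
    (k : ℕ) : ‖TT k ((a : ℝ) / d + b / 6)‖ ≤
      2 * Real.sqrt 3 ^ k * Real.exp (-(k : ℝ) / (216 * (2 * Nat.log 2 d + 3))) := by
  have h := norm_TT_loss ((a : ℝ) / d + b / 6) d (2 * Nat.log 2 d + 2) hd (window_length d)
    (far_iter d hd hc a b ha) k
  refine h.trans (le_of_eq ?_)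
  congr 3
  push_cast
  ring

end Pool.Agent.Odious24
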