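import Mathlib
import Pool.Agent.Helper24.Odious.Sup

set_option autoImplicit false

namespace Pool.Agent.Odious24

open Finset

theorem ee_eq_one_iff (x : ℝ) : ee x = 1 ↔ ∃ n : ℤ, x = n := by
  constructor
  · intro h
    unfold ee at h
    rw [Complex.exp_eq_one_iff] at h
    obtain ⟨n, hn⟩ := h
    refine ⟨n, ?_⟩
    have h1 := congrArg Complex.im hn
    simp at h1
    have hpi := Real.pi_pos
    have h2 : (x - n) * (2 * Real.pi) = 0 := by linarith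
    rcases mul_eq_zero.mp h2 with h3 | h3
    · linarith
    · exfalso; linarith
  · rintro ⟨n, rfl⟩
    exact ee_int n

theorem conj_ee (x : ℝ) : (starRingEnd ℂ) (ee x) = ee (-x) := by
  unfold ee
  rw [← Complex.exp_conj]
  congr 1
  rw [map_mul, Complex.conj_ofReal, Complex.conj_I]
  push_cast
  ring

theorem orth (d : ℕ) (hd : 0 < d) (h : ℤ) :
    ∑ a ∈ range d, ee ((a : ℝ) * ((h : ℝ) / d)) = if (d : ℤ) ∣ h then (d : ℂ) else 0 := by
  have hd' : (d : ℝ) ≠ 0 := by exact_mod_cast hd.ne'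
  simp_rw [ee_nat_mul]
  split_ifs with hdv
  · obtain ⟨c, hc⟩ := hdv
    have h1 : ee ((h : ℝ) / d) = 1 := by
      rw [ee_eq_one_iff]
      refine ⟨c, ?_⟩
      rw [hc]
      push_cast
      field_simp
    rw [h1]
    simp
  · have h1 : ee ((h : ℝ) / d) ≠ 1 := by
      intro h2
      rw [ee_eq_one_iff] at h2
      obtain ⟨n, hn⟩ := h2
      apply hdv
      refine ⟨n, ?_⟩
      rw [div_eq_iff hd'] at hn
      have h3 : (h : ℝ) = ((d * n : ℤ) : ℝ) := by push_cast; linarith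
      exact_mod_cast h3
    have h2 : ee ((h : ℝ) / d) ^ d = 1 := by
      rw [← ee_nat_mul]
      have h3 : (d : ℝ) * ((h : ℝ) / d) = (h : ℝ) := by field_simp
      rw [h3, ee_int]
    have h3 := geom_sum_eq h1 d
    rw [h3, h2]
    simp

theorem count_le (d q N : ℕ) (hd : 0 < d) (hN : N ≤ q * d) (n : ℕ) :
    ∑ m ∈ range N, (if (d : ℤ) ∣ ((n : ℤ) - m) then (1 : ℝ) else 0) ≤ q := by
  rw [← sum_filter, sum_const, nsmul_eq_mul, mul_one]
  have h1 : ((range N).filter (fun m : ℕ => (d : ℤ) ∣ ((n : ℤ) - (m : ℤ)))).card ≤ q := by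
    have h2 : ((range N).filter (fun m : ℕ => (d : ℤ) ∣ ((n : ℤ) - (m : ℤ)))) ⊆
        (range (q * d)).filter (fun m : ℕ => m ≡ n [MOD d]) := by
      intro m hm
      rw [mem_filter, mem_range] at hm ⊢
      refine ⟨by omega, ?_⟩
      exact (Nat.modEq_iff_dvd).mpr hm.2
    refine (card_le_card h2).trans ?_
    rw [← Nat.count_eq_card_filter_range, Nat.count_modEq_card _ hd]
    rw [Nat.mul_mod_left, Nat.mul_div_cancel _ hd]
    simp
  exact_mod_cast h1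

theorem parseval_le (d q N : ℕ) (hd : 0 < d) (hN : N ≤ q * d) (u : ℕ) (hu : Nat.Coprime d u)
    (β : ℝ) (f : ℕ → ℂ) :
    ∑ a ∈ range d, ‖∑ n ∈ range N, f n * ee (n * (u * ((a : ℝ) / d + β)))‖ ^ 2 ≤
      (q : ℝ) * d * ∑ n ∈ range N, ‖f n‖ ^ 2 := by
  have hd' : (d : ℝ) ≠ 0 := by exact_mod_cast hd.ne'
  set c : ℕ → ℕ → ℝ := fun n m => if (d : ℤ) ∣ ((n : ℤ) - m) then (1 : ℝ) else 0 with hc
  have hc0 : ∀ n m, 0 ≤ c n m := by
    intro n m; simp only [hc]; split_ifs <;> norm_num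
  have hcs : ∀ n m, c n m = c m n := by
    intro n m
    simp only [hc]
    have : ((d : ℤ) ∣ ((n : ℤ) - m)) ↔ ((d : ℤ) ∣ ((m : ℤ) - n)) := dvd_sub_comm
    simp only [this]
  have key : ((∑ a ∈ range d, ‖∑ n ∈ range N, f n * ee (n * (u * ((a : ℝ) / d + β)))‖ ^ 2 : ℝ) : ℂ) =
      ∑ n ∈ range N, ∑ m ∈ range N, (f n * (starRingEnd ℂ) (f m) * ee (((n : ℝ) - m) * (u * β))) *
        ((d : ℂ) * (c n m : ℂ)) := by
    rw [Complex.ofReal_sum]
    have h1 : ∀ a ∈ range d, ((‖∑ n ∈ range N, f n * ee (n * (u * ((a : ℝ) / d + β)))‖ ^ 2 : ℝ) : ℂ) =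
        ∑ n ∈ range N, ∑ m ∈ range N, (f n * (starRingEnd ℂ) (f m) * ee (((n : ℝ) - m) * (u * β))) *
          ee ((a : ℝ) * (((((n : ℤ) - m) * u : ℤ) : ℝ) / d)) := by
      intro a _
      rw [← Complex.normSq_eq_norm_sq, Complex.normSq_eq_conj_mul_self, mul_comm, map_sum,
        sum_mul_sum]
      apply sum_congr rfl
      intro n _
      apply sum_congr rfl
      intro m _
      rw [map_mul, conj_ee]
      have h2 : f n * ee (↑n * (↑u * (↑a / ↑d + β))) * ((starRingEnd ℂ) (f m) * ee (-(↑m * (↑u * (↑a / ↑d + β))))) =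
          f n * (starRingEnd ℂ) (f m) * ee (↑n * (↑u * (↑a / ↑d + β)) + (-(↑m * (↑u * (↑a / ↑d + β))))) := by
        rw [ee_add]; ring
      rw [h2]
      have h3 : (↑n * (↑u * (↑a / ↑d + β)) + (-(↑m * (↑u * (↑a / ↑d + β)))) : ℝ) =
          ((n : ℝ) - m) * (u * β) + (a : ℝ) * (((((n : ℤ) - m) * u : ℤ) : ℝ) / d) := by
        push_cast
        field_simp
        ring
      rw [h3, ee_add]
      ring
    rw [sum_congr rfl h1, sum_comm]
    apply sum_congr rfl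
    intro n _
    rw [sum_comm]
    apply sum_congr rfl
    intro m _
    rw [← mul_sum, orth d hd]
    congr 1
    have h2 : ((d : ℤ) ∣ ((n : ℤ) - m) * u) ↔ ((d : ℤ) ∣ ((n : ℤ) - m)) := by
      constructor
      · intro h
        have h3 : IsCoprime (d : ℤ) (u : ℤ) := Nat.isCoprime_iff_coprime.mpr hu
        exact h3.dvd_of_dvd_mul_right h
      · intro h
        exact Dvd.dvd.mul_right h _
    simp only [h2, hc]
    split_ifs <;> simp
  have hnn : 0 ≤ ∑ a ∈ range d, ‖∑ n ∈ range N, f n * ee (n * (u * ((a : ℝ) / d + β)))‖ ^ 2 :=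
    sum_nonneg (fun _ _ => sq_nonneg _)
  have h1 : ∑ a ∈ range d, ‖∑ n ∈ range N, f n * ee (n * (u * ((a : ℝ) / d + β)))‖ ^ 2 =
      ‖((∑ a ∈ range d, ‖∑ n ∈ range N, f n * ee (n * (u * ((a : ℝ) / d + β)))‖ ^ 2 : ℝ) : ℂ)‖ := by
    rw [Complex.norm_real, Real.norm_of_nonneg hnn]
  rw [h1, key]
  refine (norm_sum_le _ _).trans ?_
  have h2 : ∀ n ∈ range N, ‖∑ m ∈ range N, (f n * (starRingEnd ℂ) (f m) * ee (((n : ℝ) - m) * (u * β))) *
        ((d : ℂ) * (c n m : ℂ))‖ ≤ ∑ m ∈ range N, (d : ℝ) * (c n m * ((‖f n‖ ^ 2 + ‖f m‖ ^ 2) / 2)) := by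
    intro n _
    refine (norm_sum_le _ _).trans ?_
    apply sum_le_sum
    intro m _
    rw [norm_mul, norm_mul, norm_mul, norm_mul, norm_ee, RCLike.norm_conj, Complex.norm_natCast,
      Complex.norm_real, Real.norm_of_nonneg (hc0 n m)]
    have h3 : ‖f n‖ * ‖f m‖ ≤ (‖f n‖ ^ 2 + ‖f m‖ ^ 2) / 2 := by
      nlinarith [sq_nonneg (‖f n‖ - ‖f m‖)]
    have h4 : 0 ≤ (d : ℝ) * c n m := mul_nonneg (by positivity) (hc0 n m)
    calc ‖f n‖ * ‖f m‖ * 1 * ((d : ℝ) * c n m) ≤ ((‖f n‖ ^ 2 + ‖f m‖ ^ 2) / 2) * ((d : ℝ) * c n m) := by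
          rw [mul_one]
          exact mul_le_mul_of_nonneg_right h3 h4
      _ = _ := by ring
  refine (sum_le_sum h2).trans ?_
  have h3 : ∑ n ∈ range N, ∑ m ∈ range N, (d : ℝ) * (c n m * ((‖f n‖ ^ 2 + ‖f m‖ ^ 2) / 2)) =
      (d : ℝ) * ∑ n ∈ range N, ∑ m ∈ range N, c n m * ‖f n‖ ^ 2 := by
    have h4 : ∑ n ∈ range N, ∑ m ∈ range N, c n m * ‖f m‖ ^ 2 =
        ∑ n ∈ range N, ∑ m ∈ range N, c n m * ‖f n‖ ^ 2 := by
      rw [sum_comm]
      apply sum_congr rfl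
      intro n _
      apply sum_congr rfl
      intro m _
      rw [hcs]
    have h5 : ∀ n ∈ range N, ∀ m ∈ range N, (d : ℝ) * (c n m * ((‖f n‖ ^ 2 + ‖f m‖ ^ 2) / 2)) =
        (d : ℝ) / 2 * (c n m * ‖f n‖ ^ 2) + (d : ℝ) / 2 * (c n m * ‖f m‖ ^ 2) := by
      intro n _ m _
      ring
    rw [sum_congr rfl (fun n hn => sum_congr rfl (h5 n hn))]
    simp_rw [sum_add_distrib, ← mul_sum]
    rw [h4]
    ring
  rw [h3]
  have h4 : ∑ n ∈ range N, ∑ m ∈ range N, c n m * ‖f n‖ ^ 2 ≤ ∑ n ∈ range N, (q : ℝ) * ‖f n‖ ^ 2 := by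
    apply sum_le_sum
    intro n _
    rw [← sum_mul]
    exact mul_le_mul_of_nonneg_right (count_le d q N hd hN n) (sq_nonneg _)
  rw [← mul_sum] at h4
  calc _ ≤ (d : ℝ) * ((q : ℝ) * ∑ n ∈ range N, ‖f n‖ ^ 2) := mul_le_mul_of_nonneg_left h4 (by positivity)
    _ = _ := by ring

/-- second moment -/
theorem mean_sq (d j : ℕ) (hd : 0 < d) (hodd : Nat.Coprime d 2) (hj : 2 ^ j ≤ d) (i : ℕ) (β : ℝ) :
    ∑ a ∈ range d, ‖TT j (2 ^ i * ((a : ℝ) / d + β))‖ ^ 2 ≤ (d : ℝ) * 2 ^ j := by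
  have h := parseval_le d 1 (2 ^ j) hd (by omega) (2 ^ i) (hodd.pow_right i) β
    (fun n => ((tmz n : ℤ) : ℂ))
  have h2 : ∑ n ∈ range (2 ^ j), ‖((tmz n : ℤ) : ℂ)‖ ^ 2 = 2 ^ j := by
    simp_rw [norm_tmz]
    simp
  simp only [h2] at h
  have h3 : ∀ a : ℕ, TT j (2 ^ i * ((a : ℝ) / d + β)) =
      ∑ n ∈ range (2 ^ j), ((tmz n : ℤ) : ℂ) * ee (n * (((2 ^ i : ℕ) : ℝ) * ((a : ℝ) / d + β))) := by
    intro a
    unfold TT
    push_cast
    rfl
  simp_rw [h3]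
  refine h.trans (le_of_eq ?_)
  push_cast
  ring

/-- L1 bound from two blocks -/
theorem mean_two (d j : ℕ) (hd : 0 < d) (hodd : Nat.Coprime d 2) (hj : 2 ^ j ≤ d) (r : ℕ) (β : ℝ) :
    ∑ a ∈ range d, ‖TT (j + j + r) ((a : ℝ) / d + β)‖ ≤ (d : ℝ) * 2 ^ j * (2 * Real.sqrt 3 ^ r) := by
  have h0 := mean_sq d j hd hodd hj 0 β
  have h1 := mean_sq d j hd hodd hj j β
  have h2 : ∀ a ∈ range d, ‖TT (j + j + r) ((a : ℝ) / d + β)‖ ≤
      ((‖TT j (2 ^ 0 * ((a : ℝ) / d + β))‖ ^ 2 + ‖TT j (2 ^ j * ((a : ℝ) / d + β))‖ ^ 2) / 2) *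
        (2 * Real.sqrt 3 ^ r) := by
    intro a _
    rw [TT_add, TT_add, norm_mul, norm_mul, pow_zero, one_mul]
    have h3 := norm_TT_le r (2 ^ (j + j) * ((a : ℝ) / d + β))
    apply mul_le_mul _ h3 (norm_nonneg _)
    · positivity
    · nlinarith [sq_nonneg (‖TT j ((a : ℝ) / d + β)‖ - ‖TT j (2 ^ j * ((a : ℝ) / d + β))‖)]
  refine (sum_le_sum h2).trans ?_
  rw [← sum_mul]
  apply mul_le_mul_of_nonneg_right _ (by positivity)
  rw [← sum_div, sum_add_distrib]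
  linarith

end Pool.Agent.Odious24
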