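import Mathlib
import Pool.Agent.Helper24.Odious.Mean

set_option autoImplicit false

namespace Pool.Agent.Odious24

open Finset

/-- coefficients of the square of the dyadic product -/
def gg : ℕ → ℕ → ℤ
  | 0, s => if s = 0 then 1 else 0
  | (m + 1), s => if s % 2 = 0 then gg m (s / 2) + (if s / 2 = 0 then 0 else gg m (s / 2 - 1))
      else -2 * gg m (s / 2)

/-- shifted coefficients -/
def pg (m s : ℕ) : ℤ := if s = 0 then 0 else gg m (s - 1)

theorem gg_even (m s : ℕ) : gg (m + 1) (2 * s) = gg m s + pg m s := by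
  rw [gg, pg]
  have h1 : 2 * s % 2 = 0 := by omega
  have h2 : 2 * s / 2 = s := by omega
  rw [h1, h2]
  simp

theorem gg_odd (m s : ℕ) : gg (m + 1) (2 * s + 1) = -2 * gg m s := by
  rw [gg]
  have h1 : (2 * s + 1) % 2 = 1 := by omega
  have h2 : (2 * s + 1) / 2 = s := by omega
  rw [h1, h2]
  simp

theorem gg_support (m : ℕ) : ∀ s, 2 ^ (m + 1) ≤ s + 1 → gg m s = 0 := by
  induction m with
  | zero =>
    intro s hs
    rw [gg]
    have : s ≠ 0 := by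
      intro h; subst h; norm_num at hs
    simp [this]
  | succ m ih =>
    intro s hs
    have h2 : 2 ^ (m + 1 + 1) = 2 * 2 ^ (m + 1) := by ring
    have h3 : 1 ≤ 2 ^ (m + 1) := Nat.one_le_two_pow
    rcases Nat.even_or_odd' s with ⟨t, ht | ht⟩
    · rw [ht, gg_even, pg]
      rw [ih t (by omega), ih (t - 1) (by omega)]
      simp
    · rw [ht, gg_odd, ih t (by omega)]
      simp

theorem pg_succ (m s : ℕ) : pg m (s + 1) = gg m s := by
  simp [pg]

theorem pg_zero (m : ℕ) : pg m 0 = 0 := by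
  simp [pg]

theorem TT_sq (m : ℕ) (x : ℝ) : TT m x ^ 2 = ∑ s ∈ range (2 ^ (m + 1)), ((gg m s : ℤ) : ℂ) * ee (s * x) := by
  induction m generalizing x with
  | zero =>
    rw [TT_zero, show 2 ^ (0 + 1) = 2 by norm_num, sum_range_succ, sum_range_succ]
    simp [gg, ee_zero]
  | succ m ih =>
    rw [TT_succ, mul_pow, ih, pow_succ 2 (m + 1), mul_comm (2 ^ (m + 1)) 2, sum_range_two_mul]
    have h1 : ∀ s ∈ range (2 ^ (m + 1)),
        ((gg (m + 1) (2 * s) : ℤ) : ℂ) * ee (((2 * s : ℕ) : ℝ) * x) +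
        ((gg (m + 1) (2 * s + 1) : ℤ) : ℂ) * ee (((2 * s + 1 : ℕ) : ℝ) * x) =
        (1 - 2 * ee x) * (((gg m s : ℤ) : ℂ) * ee (s * (2 * x))) +
          ((pg m s : ℤ) : ℂ) * ee (s * (2 * x)) := by
      intro s _
      rw [gg_even, gg_odd]
      have h1 : ee (((2 * s : ℕ) : ℝ) * x) = ee (s * (2 * x)) := by
        congr 1; push_cast; ring
      have h2 : ee (((2 * s + 1 : ℕ) : ℝ) * x) = ee (s * (2 * x)) * ee x := by
        rw [← ee_add]; congr 1; push_cast; ring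
      rw [h1, h2]
      push_cast
      ring
    rw [sum_congr rfl h1, sum_add_distrib, ← mul_sum]
    have h2 : ∑ s ∈ range (2 ^ (m + 1)), ((pg m s : ℤ) : ℂ) * ee (s * (2 * x)) =
        ee x ^ 2 * ∑ s ∈ range (2 ^ (m + 1)), ((gg m s : ℤ) : ℂ) * ee (s * (2 * x)) := by
      obtain ⟨M, hM⟩ : ∃ M, 2 ^ (m + 1) = M + 1 := ⟨2 ^ (m + 1) - 1, by
        have : 1 ≤ 2 ^ (m + 1) := Nat.one_le_two_pow
        omega⟩
      rw [hM, sum_range_succ', sum_range_succ (fun s => ((gg m s : ℤ) : ℂ) * ee (s * (2 * x)))]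
      rw [pg_zero, gg_support m M (by omega)]
      simp only [Int.cast_zero, zero_mul, add_zero]
      rw [mul_sum]
      apply sum_congr rfl
      intro s _
      rw [pg_succ]
      have h3 : ee (((s + 1 : ℕ) : ℝ) * (2 * x)) = ee (s * (2 * x)) * ee x ^ 2 := by
        have h4 : (((s + 1 : ℕ) : ℝ) * (2 * x)) = s * (2 * x) + ((2 : ℕ) : ℝ) * x := by
          push_cast; ring
        rw [h4, ee_add, ee_nat_mul 2]
      rw [h3]
      ring
    rw [h2]
    ring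

/-- sum of squares of the coefficients -/
def AA (m : ℕ) : ℤ := ∑ s ∈ range (2 ^ (m + 1)), gg m s ^ 2

/-- sum of neighbouring products -/
def BB (m : ℕ) : ℤ := ∑ s ∈ range (2 ^ (m + 1)), gg m (s + 1) * gg m s

theorem sum_pg_sq (m : ℕ) : ∑ s ∈ range (2 ^ (m + 1)), pg m s ^ 2 = AA m := by
  unfold AA
  obtain ⟨M, hM⟩ : ∃ M, 2 ^ (m + 1) = M + 1 := ⟨2 ^ (m + 1) - 1, by
    have : 1 ≤ 2 ^ (m + 1) := Nat.one_le_two_pow
    omega⟩
  rw [hM, sum_range_succ', sum_range_succ (fun s => gg m s ^ 2)]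
  rw [pg_zero, gg_support m M (by omega)]
  simp_rw [pg_succ]

theorem sum_gg_pg (m : ℕ) : ∑ s ∈ range (2 ^ (m + 1)), gg m s * pg m s = BB m := by
  unfold BB
  obtain ⟨M, hM⟩ : ∃ M, 2 ^ (m + 1) = M + 1 := ⟨2 ^ (m + 1) - 1, by
    have : 1 ≤ 2 ^ (m + 1) := Nat.one_le_two_pow
    omega⟩
  rw [hM, sum_range_succ', sum_range_succ (fun s => gg m (s + 1) * gg m s)]
  rw [pg_zero, gg_support m M (by omega)]
  simp_rw [pg_succ]
  simp

theorem AA_succ (m : ℕ) : AA (m + 1) = 6 * AA m + 2 * BB m := by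
  have h1 : AA (m + 1) = ∑ s ∈ range (2 ^ (m + 1)), ((gg m s + pg m s) ^ 2 + (-2 * gg m s) ^ 2) := by
    unfold AA
    rw [pow_succ 2 (m + 1), mul_comm (2 ^ (m + 1)) 2, sum_range_two_mul]
    apply sum_congr rfl
    intro s _
    rw [gg_even, gg_odd]
  have h2 : ∀ s ∈ range (2 ^ (m + 1)), (gg m s + pg m s) ^ 2 + (-2 * gg m s) ^ 2 =
      5 * gg m s ^ 2 + 2 * (gg m s * pg m s) + pg m s ^ 2 := by
    intro s _; ring
  rw [h1, sum_congr rfl h2, sum_add_distrib, sum_add_distrib, ← mul_sum, ← mul_sum, sum_pg_sq,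
    sum_gg_pg]
  unfold AA
  ring

theorem BB_succ (m : ℕ) : BB (m + 1) = -4 * AA m - 4 * BB m := by
  have h1 : BB (m + 1) = ∑ s ∈ range (2 ^ (m + 1)), ((-2 * gg m s) * (gg m s + pg m s) +
      (gg m (s + 1) + gg m s) * (-2 * gg m s)) := by
    unfold BB
    rw [pow_succ 2 (m + 1), mul_comm (2 ^ (m + 1)) 2, sum_range_two_mul]
    apply sum_congr rfl
    intro s _
    rw [show 2 * s + 1 + 1 = 2 * (s + 1) by ring, gg_even, gg_odd, gg_even, pg_succ]
  have h2 : ∀ s ∈ range (2 ^ (m + 1)), ((-2 * gg m s) * (gg m s + pg m s) +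
      (gg m (s + 1) + gg m s) * (-2 * gg m s)) =
      (-4) * gg m s ^ 2 + ((-2) * (gg m s * pg m s) + (-2) * (gg m (s + 1) * gg m s)) := by
    intro s _; ring
  rw [h1, sum_congr rfl h2, sum_add_distrib, sum_add_distrib, ← mul_sum, ← mul_sum, ← mul_sum,
    sum_gg_pg]
  unfold AA BB
  ring

theorem AA_zero : AA 0 = 1 := by decide

theorem BB_zero : BB 0 = 0 := by decide

theorem AA_rec (m : ℕ) : AA (m + 2) = 2 * AA (m + 1) + 16 * AA m := by
  have h1 := AA_succ (m + 1)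
  have h2 := BB_succ m
  have h3 := AA_succ m
  have h4 : AA (m + 2) = 6 * AA (m + 1) + 2 * BB (m + 1) := h1
  rw [h4, h2]
  linarith

theorem AA_nonneg (m : ℕ) : 0 ≤ AA m := sum_nonneg (fun _ _ => sq_nonneg _)

theorem AA_le (m : ℕ) : ((AA m : ℤ) : ℝ) ≤ 6 / 5 * (103 / 20) ^ m ∧
    ((AA (m + 1) : ℤ) : ℝ) ≤ 6 / 5 * (103 / 20) ^ (m + 1) := by
  induction m with
  | zero =>
    have h1 := AA_succ 0
    rw [AA_zero, BB_zero] at h1
    rw [AA_zero, h1]
    norm_num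
  | succ m ih =>
    refine ⟨ih.2, ?_⟩
    rw [show m + 1 + 1 = m + 2 by ring, AA_rec]
    push_cast
    have h1 : (0 : ℝ) < (103 / 20) ^ m := by positivity
    have h2 := ih.1
    have h3 := ih.2
    rw [pow_succ] at h3
    rw [show m + 2 = m + 1 + 1 by ring, pow_succ, pow_succ]
    nlinarith

/-- fourth moment -/
theorem mean_fourth (d j : ℕ) (hd : 0 < d) (hodd : Nat.Coprime d 2) (hj : 2 ^ j ≤ d) (i : ℕ) (β : ℝ) :
    ∑ a ∈ range d, ‖TT j (2 ^ i * ((a : ℝ) / d + β))‖ ^ 4 ≤ (d : ℝ) * (12 / 5 * (103 / 20) ^ j) := by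
  have h := parseval_le d 2 (2 ^ (j + 1)) hd (by rw [pow_succ]; omega) (2 ^ i) (hodd.pow_right i) β
    (fun n => ((gg j n : ℤ) : ℂ))
  have h2 : ∑ n ∈ range (2 ^ (j + 1)), ‖((gg j n : ℤ) : ℂ)‖ ^ 2 = ((AA j : ℤ) : ℝ) := by
    unfold AA
    push_cast
    apply sum_congr rfl
    intro n _
    rw [Complex.norm_intCast, sq_abs]
  simp only [h2] at h
  have h3 : ∀ a : ℕ, ‖TT j (2 ^ i * ((a : ℝ) / d + β))‖ ^ 4 =
      ‖∑ n ∈ range (2 ^ (j + 1)), ((gg j n : ℤ) : ℂ) * ee (n * (((2 ^ i : ℕ) : ℝ) * ((a : ℝ) / d + β)))‖ ^ 2 := by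
    intro a
    have h4 := TT_sq j (((2 ^ i : ℕ) : ℝ) * ((a : ℝ) / d + β))
    rw [← h4, norm_pow]
    push_cast
    ring
  simp_rw [h3]
  refine h.trans ?_
  have h4 := (AA_le j).1
  have h5 : (0 : ℝ) ≤ d := by positivity
  push_cast
  nlinarith

/-- L1 bound from four blocks -/
theorem mean_four (d j : ℕ) (hd : 0 < d) (hodd : Nat.Coprime d 2) (hj : 2 ^ j ≤ d) (r : ℕ) (β : ℝ) :
    ∑ a ∈ range d, ‖TT (j + j + j + j + r) ((a : ℝ) / d + β)‖ ≤
      (d : ℝ) * (12 / 5 * (103 / 20) ^ j) * (2 * Real.sqrt 3 ^ r) := by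
  have h0 := mean_fourth d j hd hodd hj 0 β
  have h1 := mean_fourth d j hd hodd hj j β
  have h2 := mean_fourth d j hd hodd hj (j + j) β
  have h3 := mean_fourth d j hd hodd hj (j + j + j) β
  have h4 : ∀ a ∈ range d, ‖TT (j + j + j + j + r) ((a : ℝ) / d + β)‖ ≤
      ((‖TT j (2 ^ 0 * ((a : ℝ) / d + β))‖ ^ 4 + ‖TT j (2 ^ j * ((a : ℝ) / d + β))‖ ^ 4 +
        ‖TT j (2 ^ (j + j) * ((a : ℝ) / d + β))‖ ^ 4 +
        ‖TT j (2 ^ (j + j + j) * ((a : ℝ) / d + β))‖ ^ 4) / 4) *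
        (2 * Real.sqrt 3 ^ r) := by
    intro a _
    rw [TT_add (j + j + j + j) r, TT_add (j + j + j) j, TT_add (j + j) j, TT_add j j, norm_mul,
      norm_mul, norm_mul, norm_mul, pow_zero, one_mul]
    have h3 := norm_TT_le r (2 ^ (j + j + j + j) * ((a : ℝ) / d + β))
    apply mul_le_mul _ h3 (norm_nonneg _)
    · positivity
    · set p := ‖TT j ((a : ℝ) / d + β)‖
      set q := ‖TT j (2 ^ j * ((a : ℝ) / d + β))‖
      set s := ‖TT j (2 ^ (j + j) * ((a : ℝ) / d + β))‖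
      set t := ‖TT j (2 ^ (j + j + j) * ((a : ℝ) / d + β))‖
      have e1 : 2 * ((p * q) * (s * t)) ≤ (p * q) ^ 2 + (s * t) ^ 2 := by
        nlinarith [sq_nonneg (p * q - s * t)]
      have e2 : 2 * (p * q) ^ 2 ≤ p ^ 4 + q ^ 4 := by
        nlinarith [sq_nonneg (p ^ 2 - q ^ 2)]
      have e3 : 2 * (s * t) ^ 2 ≤ s ^ 4 + t ^ 4 := by
        nlinarith [sq_nonneg (s ^ 2 - t ^ 2)]
      nlinarith
  refine (sum_le_sum h4).trans ?_
  rw [← sum_mul]
  apply mul_le_mul_of_nonneg_right _ (by positivity)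
  rw [← sum_div, sum_add_distrib, sum_add_distrib, sum_add_distrib]
  linarith

end Pool.Agent.Odious24
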