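import Mathlib
import Pool.Prelude.Def_F_438a8d17
import Pool.Agent.Helper24.Odious.Fourth

set_option autoImplicit false

namespace Pool.Agent.Odious24

open Finset

open Classical in
/-- The odious minus the evil numbers below x having no prime factor up to z. -/
noncomputable def FF (x z : ℕ) : ℤ :=
  ∑ n ∈ (range x).filter (fun n => ∀ p : ℕ, p.Prime → p ≤ z → ¬ p ∣ n), Nceb06bb4.signWeight n

/-- The primes from 5 to z. -/
def PP (z : ℕ) : Finset ℕ := (Icc 5 z).filter Nat.Prime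

theorem signWeight_eq (n : ℕ) : Nceb06bb4.signWeight n = - tmz n := by
  unfold Nceb06bb4.signWeight tmz
  split_ifs with h
  · have h1 : Odd (Nat.digits 2 n).sum := Nat.odd_iff.mpr h
    rw [h1.neg_one_pow]; norm_num
  · have h1 : Even (Nat.digits 2 n).sum := Nat.even_iff.mpr (by omega)
    rw [h1.neg_one_pow]

/-- the weight restricted to numbers prime to 6 -/
noncomputable def wt (n : ℕ) : ℂ := if Nat.Coprime n 6 then - ((tmz n : ℤ) : ℂ) else 0

theorem norm_wt_le (n : ℕ) : ‖wt n‖ ≤ 1 := by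
  unfold wt
  split_ifs
  · rw [norm_neg, norm_tmz]
  · simp

theorem wt_zero : wt 0 = 0 := by
  unfold wt
  simp

/-- weighted exponential sum -/
noncomputable def GG (x : ℕ) (α : ℝ) : ℂ := ∑ n ∈ range x, wt n * ee (n * α)

/-- numbers divisible by d -/
noncomputable def DD (x d : ℕ) : ℂ := ∑ n ∈ range x, if d ∣ n then wt n else 0

theorem DD_eq (x d : ℕ) (hd : 0 < d) : DD x d = (1 / (d : ℂ)) * ∑ a ∈ range d, GG x ((a : ℝ) / d) := by
  have hd' : (d : ℂ) ≠ 0 := by exact_mod_cast hd.ne'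
  unfold DD GG
  rw [sum_comm, mul_sum]
  apply sum_congr rfl
  intro n _
  rw [← mul_sum]
  have h1 : ∑ a ∈ range d, ee ((n : ℝ) * ((a : ℝ) / d)) = if d ∣ n then (d : ℂ) else 0 := by
    have h2 := orth d hd (n : ℤ)
    have h3 : ((d : ℤ) ∣ (n : ℤ)) ↔ d ∣ n := Int.natCast_dvd_natCast
    simp only [h3] at h2
    rw [← h2]
    apply sum_congr rfl
    intro a _
    congr 1
    push_cast
    ring
  rw [h1]
  split_ifs
  · field_simp
  · simp

theorem coprime_six_iff (n : ℕ) : Nat.Coprime n 6 ↔ (n % 6 = 1 ∨ n % 6 = 5) := by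
  have h1 : Nat.Coprime n 6 ↔ Nat.Coprime (n % 6) 6 := by
    unfold Nat.Coprime
    rw [Nat.gcd_comm n 6, Nat.gcd_rec 6 n]
  rw [h1]
  have h2 : n % 6 < 6 := Nat.mod_lt _ (by norm_num)
  interval_cases (n % 6) <;> decide

theorem ind_six (n : ℕ) : (if Nat.Coprime n 6 then (1 : ℂ) else 0) =
    (1 / 6) * ∑ b ∈ range 6, (ee (-(b : ℝ) / 6) + ee (-(5 * b : ℝ) / 6)) * ee (n * ((b : ℝ) / 6)) := by
  have h1 : ∀ b ∈ range 6, (ee (-(b : ℝ) / 6) + ee (-(5 * b : ℝ) / 6)) * ee (n * ((b : ℝ) / 6)) =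
      ee ((b : ℝ) * ((((n : ℤ) - 1 : ℤ) : ℝ) / ((6 : ℕ) : ℝ))) +
      ee ((b : ℝ) * ((((n : ℤ) - 5 : ℤ) : ℝ) / ((6 : ℕ) : ℝ))) := by
    intro b _
    rw [add_mul, ← ee_add, ← ee_add]
    congr 2
    · push_cast; ring
    · push_cast; ring
  rw [sum_congr rfl h1, sum_add_distrib, orth 6 (by norm_num), orth 6 (by norm_num)]
  rw [if_congr (coprime_six_iff n) rfl rfl]
  have h2 : (((6 : ℕ) : ℤ) ∣ ((n : ℤ) - 1)) ↔ n % 6 = 1 := by omega
  have h3 : (((6 : ℕ) : ℤ) ∣ ((n : ℤ) - 5)) ↔ n % 6 = 5 := by omega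
  simp only [h2, h3]
  by_cases e1 : n % 6 = 1
  · have e2 : ¬ (n % 6 = 5) := by omega
    simp [e1]
  · by_cases e2 : n % 6 = 5
    · simp [e2]
    · simp [e1, e2]

theorem GG_le (x : ℕ) (α : ℝ) : ‖GG x α‖ ≤ (1 / 3) * ∑ b ∈ range 6, ‖SS x (α + (b : ℝ) / 6)‖ := by
  have h1 : GG x α = -(1 / 6) * ∑ b ∈ range 6, (ee (-(b : ℝ) / 6) + ee (-(5 * b : ℝ) / 6)) *
      SS x (α + (b : ℝ) / 6) := by
    unfold GG SS
    simp_rw [mul_sum]
    rw [sum_comm]
    apply sum_congr rfl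
    intro n _
    have h2 : wt n = - ((tmz n : ℤ) : ℂ) * (if Nat.Coprime n 6 then (1 : ℂ) else 0) := by
      unfold wt
      split_ifs <;> simp
    rw [h2, ind_six, mul_sum, mul_sum, sum_mul]
    apply sum_congr rfl
    intro b _
    have h3 : ee ((n : ℝ) * (α + (b : ℝ) / 6)) = ee (n * α) * ee (n * ((b : ℝ) / 6)) := by
      rw [← ee_add]; congr 1; ring
    rw [h3]
    ring
  rw [h1, norm_mul]
  have h2 : ‖(-(1 / 6) : ℂ)‖ = 1 / 6 := by
    rw [norm_neg]; norm_num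
  rw [h2]
  have h3 : ‖∑ b ∈ range 6, (ee (-(b : ℝ) / 6) + ee (-(5 * b : ℝ) / 6)) *
      SS x (α + (b : ℝ) / 6)‖ ≤ ∑ b ∈ range 6, 2 * ‖SS x (α + (b : ℝ) / 6)‖ := by
    refine (norm_sum_le _ _).trans ?_
    apply sum_le_sum
    intro b _
    rw [norm_mul]
    apply mul_le_mul_of_nonneg_right _ (norm_nonneg _)
    refine (norm_add_le _ _).trans ?_
    rw [norm_ee, norm_ee]
    norm_num
  rw [← mul_sum] at h3
  calc _ ≤ 1 / 6 * (2 * ∑ b ∈ range 6, ‖SS x (α + (b : ℝ) / 6)‖) :=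
        mul_le_mul_of_nonneg_left h3 (by norm_num)
    _ = _ := by ring

/-- the remainder of the modulus d -/
noncomputable def RR (x d : ℕ) : ℂ := DD x d - (1 / (d : ℂ)) * GG x 0

/-- the mean value over nonzero a -/
noncomputable def MM (j d : ℕ) : ℝ :=
  (1 / (d : ℝ)) * ∑ a ∈ (range d).erase 0, (1 / 3) * ∑ b ∈ range 6, ‖TT j ((a : ℝ) / d + (b : ℝ) / 6)‖

theorem RR_le_MM (x d k : ℕ) (hd : 0 < d) (hx : x < 2 ^ k) :
    ‖RR x d‖ ≤ ∑ j ∈ range (k + 1), MM j d := by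
  have h1 : RR x d = (1 / (d : ℂ)) * ∑ a ∈ (range d).erase 0, GG x ((a : ℝ) / d) := by
    unfold RR
    rw [DD_eq x d hd, ← Finset.add_sum_erase (range d) (fun a => GG x ((a : ℝ) / d)) (mem_range.mpr hd)]
    simp only [Nat.cast_zero, zero_div]
    ring
  rw [h1, norm_mul]
  have h2 : ‖(1 / (d : ℂ))‖ = 1 / (d : ℝ) := by
    rw [norm_div, norm_one, Complex.norm_natCast]
  rw [h2]
  unfold MM
  rw [← mul_sum]
  apply mul_le_mul_of_nonneg_left _ (by positivity)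
  refine (norm_sum_le _ _).trans ?_
  rw [sum_comm]
  apply sum_le_sum
  intro a _
  refine (GG_le x _).trans ?_
  rw [← mul_sum]
  apply mul_le_mul_of_nonneg_left _ (by norm_num)
  rw [sum_comm]
  apply sum_le_sum
  intro b _
  exact SS_bound k x _ hx

theorem norm_DD_le (x d : ℕ) (hd : 0 < d) : ‖DD x d‖ ≤ (x : ℝ) / d := by
  have h1 : ‖DD x d‖ ≤ ∑ n ∈ range x, if (d ∣ n ∧ 0 < n) then (1 : ℝ) else 0 := by
    unfold DD
    refine (norm_sum_le _ _).trans ?_
    apply sum_le_sum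
    intro n _
    by_cases h0 : n = 0
    · subst h0
      simp [wt_zero]
    · by_cases h : d ∣ n
      · simp only [h, if_true, true_and, Nat.pos_of_ne_zero h0]
        exact norm_wt_le n
      · simp [h]
  refine h1.trans ?_
  rw [← sum_filter, sum_const, nsmul_eq_mul, mul_one]
  have h2 : ((range x).filter (fun n => d ∣ n ∧ 0 < n)).card ≤ x / d := by
    have h3 : ((range x).filter (fun n => d ∣ n ∧ 0 < n)) ⊆ (range (x / d)).image (fun q => (q + 1) * d) := by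
      intro n hn
      rw [mem_filter, mem_range] at hn
      obtain ⟨hn1, ⟨c, hc⟩, hn2⟩ := hn
      rw [mem_image]
      have hc0 : 0 < c := by
        rcases Nat.eq_zero_or_pos c with h | h
        · subst h; omega
        · exact h
      refine ⟨c - 1, ?_, ?_⟩
      · rw [mem_range]
        have : c ≤ x / d := by
          rw [Nat.le_div_iff_mul_le hd]
          rw [mul_comm] at hc
          omega
        omega
      · rw [Nat.sub_add_cancel hc0, hc, mul_comm]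
    exact (card_le_card h3).trans (card_image_le.trans (by simp))
  calc _ ≤ ((x / d : ℕ) : ℝ) := by exact_mod_cast h2
    _ ≤ (x : ℝ) / d := Nat.cast_div_le

theorem norm_GG_zero_le (x : ℕ) : ‖GG x 0‖ ≤ x := by
  unfold GG
  refine (norm_sum_le _ _).trans ?_
  have h1 : ∀ n ∈ range x, ‖wt n * ee (n * 0)‖ ≤ 1 := by
    intro n _
    rw [norm_mul, norm_ee, mul_one]
    exact norm_wt_le n
  refine (sum_le_sum h1).trans ?_
  simp

theorem RR_trivial (x d : ℕ) (hd : 0 < d) : ‖RR x d‖ ≤ 2 * x / d := by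
  unfold RR
  refine (norm_sub_le _ _).trans ?_
  rw [norm_mul]
  have h2 : ‖(1 / (d : ℂ))‖ = 1 / (d : ℝ) := by
    rw [norm_div, norm_one, Complex.norm_natCast]
  rw [h2]
  have h3 := norm_DD_le x d hd
  have h4 := norm_GG_zero_le x
  have h5 : 1 / (d : ℝ) * ‖GG x 0‖ ≤ 1 / (d : ℝ) * x := mul_le_mul_of_nonneg_left h4 (by positivity)
  have h6 : 2 * (x : ℝ) / d = x / d + 1 / d * x := by ring
  linarith

theorem prime_of_mem_PP {z p : ℕ} (hp : p ∈ PP z) : p.Prime := (mem_filter.mp hp).2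

theorem coprime_six_of_prime {p : ℕ} (hp : p.Prime) (h5 : 5 ≤ p) : Nat.Coprime p 6 := by
  have h2 : Nat.Coprime p 2 := (Nat.coprime_primes hp Nat.prime_two).mpr (by omega)
  have h3 : Nat.Coprime p 3 := (Nat.coprime_primes hp Nat.prime_three).mpr (by omega)
  exact Nat.Coprime.mul_right h2 h3

theorem coprime_six_of_subset {z : ℕ} {S : Finset ℕ} (hS : S ⊆ PP z) : Nat.Coprime (∏ p ∈ S, p) 6 := by
  apply Nat.Coprime.prod_left
  intro p hp
  have h := hS hp
  exact coprime_six_of_prime (prime_of_mem_PP h) (mem_Icc.mp (mem_filter.mp h).1).1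

theorem prod_pos_of_subset {z : ℕ} {S : Finset ℕ} (hS : S ⊆ PP z) : 0 < ∏ p ∈ S, p :=
  prod_pos (fun p hp => (prime_of_mem_PP (hS hp)).pos)

theorem prod_dvd_iff {z : ℕ} {S : Finset ℕ} (hS : S ⊆ PP z) (n : ℕ) :
    (∏ p ∈ S, p) ∣ n ↔ ∀ p ∈ S, p ∣ n := by
  constructor
  · intro h p hp
    exact (dvd_prod_of_mem (fun p => p) hp).trans h
  · intro h
    exact Finset.prod_primes_dvd n (fun p hp => (prime_of_mem_PP (hS hp)).prime) h

theorem sifted_iff (z n : ℕ) (hz : 3 ≤ z) :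
    (∀ p : ℕ, p.Prime → p ≤ z → ¬ p ∣ n) ↔ (Nat.Coprime n 6 ∧ ∀ p ∈ PP z, ¬ p ∣ n) := by
  constructor
  · intro h
    refine ⟨?_, ?_⟩
    · have h2 := h 2 Nat.prime_two (by omega)
      have h3 := h 3 Nat.prime_three hz
      have e2 : Nat.Coprime n 2 := (Nat.Prime.coprime_iff_not_dvd Nat.prime_two).mpr h2 |>.symm
      have e3 : Nat.Coprime n 3 := (Nat.Prime.coprime_iff_not_dvd Nat.prime_three).mpr h3 |>.symm
      exact Nat.Coprime.mul_right e2 e3
    · intro p hp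
      exact h p (prime_of_mem_PP hp) (mem_Icc.mp (mem_filter.mp hp).1).2
  · rintro ⟨h6, hP⟩ p hp hpz hdvd
    by_cases h5 : 5 ≤ p
    · exact hP p (mem_filter.mpr ⟨mem_Icc.mpr ⟨h5, hpz⟩, hp⟩) hdvd
    · have h4 : p ≠ 4 := by
        rintro rfl
        exact absurd hp (by norm_num)
      have h2 := hp.two_le
      have hcop : Nat.Coprime p 6 := Nat.Coprime.coprime_dvd_left hdvd h6
      have : p = 2 ∨ p = 3 := by omega
      rcases this with rfl | rfl
      · exact absurd hcop (by decide)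
      · exact absurd hcop (by decide)

/-- The sieve identity. -/
theorem FF_eq (x z : ℕ) (hz : 3 ≤ z) :
    ((FF x z : ℤ) : ℂ) = ∑ S ∈ (PP z).powerset, (-1 : ℂ) ^ S.card * DD x (∏ p ∈ S, p) := by
  classical
  have h1 : ((FF x z : ℤ) : ℂ) = ∑ n ∈ range x, wt n * ∏ p ∈ PP z, (1 + (if p ∣ n then (-1 : ℂ) else 0)) := by
    unfold FF
    rw [sum_filter]
    push_cast
    apply sum_congr rfl
    intro n _
    have h2 : (∀ p : ℕ, p.Prime → p ≤ z → ¬ p ∣ n) ↔ (Nat.Coprime n 6 ∧ ∀ p ∈ PP z, ¬ p ∣ n) :=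
      sifted_iff z n hz
    by_cases h6 : Nat.Coprime n 6
    · by_cases hP : ∀ p ∈ PP z, ¬ p ∣ n
      · have h3 : (∀ p : ℕ, p.Prime → p ≤ z → ¬ p ∣ n) := h2.mpr ⟨h6, hP⟩
        rw [if_pos h3, signWeight_eq]
        have h4 : ∏ p ∈ PP z, (1 + (if p ∣ n then (-1 : ℂ) else 0)) = 1 := by
          apply prod_eq_one
          intro p hp
          simp [hP p hp]
        rw [h4]
        unfold wt
        simp [h6]
      · have h3 : ¬ (∀ p : ℕ, p.Prime → p ≤ z → ¬ p ∣ n) := fun h => hP (h2.mp h).2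
        rw [if_neg h3]
        push Not at hP
        obtain ⟨p, hp, hpn⟩ := hP
        have h4 : ∏ p ∈ PP z, (1 + (if p ∣ n then (-1 : ℂ) else 0)) = 0 := by
          apply prod_eq_zero hp
          simp [hpn]
        rw [h4]
        simp
    · have h3 : ¬ (∀ p : ℕ, p.Prime → p ≤ z → ¬ p ∣ n) := fun h => h6 (h2.mp h).1
      rw [if_neg h3]
      unfold wt
      simp [h6]
  rw [h1]
  simp_rw [prod_one_add, mul_sum]
  rw [sum_comm]
  apply sum_congr rfl
  intro S hS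
  have hS' := mem_powerset.mp hS
  unfold DD
  rw [mul_sum]
  apply sum_congr rfl
  intro n _
  by_cases h : (∏ p ∈ S, p) ∣ n
  · have h2 := (prod_dvd_iff hS' n).mp h
    rw [if_pos h]
    have h3 : ∏ p ∈ S, (if p ∣ n then (-1 : ℂ) else 0) = (-1) ^ S.card := by
      rw [prod_congr rfl (fun q hq => if_pos (h2 q hq)), prod_const]
    rw [h3]
    ring
  · rw [if_neg h]
    have h2 : ¬ ∀ p ∈ S, p ∣ n := fun h3 => h ((prod_dvd_iff hS' n).mpr h3)
    push Not at h2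
    obtain ⟨p, hp, hpn⟩ := h2
    have h3 : ∏ p ∈ S, (if p ∣ n then (-1 : ℂ) else 0) = 0 := by
      apply prod_eq_zero hp
      simp [hpn]
    rw [h3]
    ring

theorem FF_three (x : ℕ) : ((FF x 3 : ℤ) : ℂ) = GG x 0 := by
  rw [FF_eq x 3 (le_refl _)]
  have h1 : PP 3 = ∅ := by decide
  rw [h1, powerset_empty, sum_singleton, card_empty, prod_empty, pow_zero, one_mul]
  unfold DD GG
  apply sum_congr rfl
  intro n _
  simp [ee_zero]

/-- The comparison with the main term. -/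
theorem FF_sub_le (x z : ℕ) (hz : 3 ≤ z) :
    |((FF x z : ℤ) : ℝ) - (FF x 3 : ℤ) * ∏ p ∈ PP z, (1 - 1 / (p : ℝ))| ≤
      ∑ S ∈ (PP z).powerset, ‖RR x (∏ p ∈ S, p)‖ := by
  classical
  have h1 : ((((FF x z : ℤ) : ℝ) - (FF x 3 : ℤ) * ∏ p ∈ PP z, (1 - 1 / (p : ℝ)) : ℝ) : ℂ) =
      ∑ S ∈ (PP z).powerset, (-1 : ℂ) ^ S.card * RR x (∏ p ∈ S, p) := by
    push_cast
    rw [FF_three, FF_eq x z hz]
    unfold RR
    simp_rw [mul_sub, sum_sub_distrib]
    congr 1
    have h2 : ∏ p ∈ PP z, (1 - 1 / (p : ℂ)) = ∏ p ∈ PP z, (1 + (-1) * (1 / (p : ℂ))) := by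
      apply prod_congr rfl
      intro p _
      ring
    rw [h2, prod_one_add, mul_sum]
    apply sum_congr rfl
    intro S _
    rw [prod_mul_distrib, prod_const]
    push_cast
    rw [prod_div_distrib, prod_const_one]
    ring
  have h2 : |((FF x z : ℤ) : ℝ) - (FF x 3 : ℤ) * ∏ p ∈ PP z, (1 - 1 / (p : ℝ))| =
      ‖((((FF x z : ℤ) : ℝ) - (FF x 3 : ℤ) * ∏ p ∈ PP z, (1 - 1 / (p : ℝ)) : ℝ) : ℂ)‖ := by
    rw [Complex.norm_real, Real.norm_eq_abs]
  rw [h2, h1]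
  refine (norm_sum_le _ _).trans ?_
  apply sum_le_sum
  intro S _
  rw [norm_mul, norm_pow, norm_neg, norm_one, one_pow, one_mul]

end Pool.Agent.Odious24
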