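import Mathlib
import Pool.Agent.Helper24.Odious.Sieve

set_option autoImplicit false

namespace Pool.Agent.Odious24

open Finset

/-- the summand on the class 1 mod 3 -/
def ft (m : ℕ) : ℤ := if m % 3 = 1 then tmz m else 0

/-- minus the sum over the class 1 mod 3 -/
def BN (N : ℕ) : ℤ := - ∑ m ∈ range N, ft m

/-- the full sum -/
def SN (N : ℕ) : ℤ := ∑ m ∈ range N, tmz m

theorem SN_two_mul (N : ℕ) : SN (2 * N) = 0 := by
  unfold SN
  rw [sum_range_two_mul]
  apply sum_eq_zero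
  intro n _
  rw [tmz_two_mul, tmz_two_mul_add_one]
  ring

theorem SN_bound (N : ℕ) : -1 ≤ SN N ∧ SN N ≤ 1 := by
  rcases Nat.even_or_odd' N with ⟨t, ht | ht⟩
  · rw [ht, SN_two_mul]; norm_num
  · have h1 : SN (2 * t + 1) = SN (2 * t) + tmz (2 * t) := by
      unfold SN; rw [sum_range_succ]
    rw [ht, h1, SN_two_mul]
    rcases tmz_eq_or (2 * t) with h | h <;> rw [h] <;> norm_num

theorem BN_four_mul (N : ℕ) : BN (4 * N) = 3 * BN N + SN N := by
  unfold BN SN
  rw [show 4 * N = 2 * (2 * N) by ring, sum_range_two_mul, sum_range_two_mul]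
  have h1 : ∀ q ∈ range N, (ft (2 * (2 * q)) + ft (2 * (2 * q) + 1) +
      (ft (2 * (2 * q + 1)) + ft (2 * (2 * q + 1) + 1))) = 3 * ft q - tmz q := by
    intro q _
    unfold ft
    rw [tmz_two_mul_add_one (2 * q), tmz_two_mul (2 * q), tmz_two_mul_add_one (2 * q + 1),
      tmz_two_mul (2 * q + 1), tmz_two_mul q, tmz_two_mul_add_one q]
    have h3 : q % 3 < 3 := Nat.mod_lt _ (by norm_num)
    have h4 : q % 3 = 0 ∨ q % 3 = 1 ∨ q % 3 = 2 := by omega
    rcases h4 with h4 | h4 | h4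
    · have e1 : ¬ ((2 * (2 * q)) % 3 = 1) := by omega
      have e2 : (2 * (2 * q) + 1) % 3 = 1 := by omega
      have e3 : ¬ ((2 * (2 * q + 1)) % 3 = 1) := by omega
      have e4 : ¬ ((2 * (2 * q + 1) + 1) % 3 = 1) := by omega
      have e5 : ¬ (q % 3 = 1) := by omega
      rw [if_neg e1, if_pos e2, if_neg e3, if_neg e4, if_neg e5]
      ring
    · have e1 : (2 * (2 * q)) % 3 = 1 := by omega
      have e2 : ¬ ((2 * (2 * q) + 1) % 3 = 1) := by omega
      have e3 : ¬ ((2 * (2 * q + 1)) % 3 = 1) := by omega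
      have e4 : (2 * (2 * q + 1) + 1) % 3 = 1 := by omega
      rw [if_pos e1, if_neg e2, if_neg e3, if_pos e4, if_pos h4]
      ring
    · have e1 : ¬ ((2 * (2 * q)) % 3 = 1) := by omega
      have e2 : ¬ ((2 * (2 * q) + 1) % 3 = 1) := by omega
      have e3 : (2 * (2 * q + 1)) % 3 = 1 := by omega
      have e4 : ¬ ((2 * (2 * q + 1) + 1) % 3 = 1) := by omega
      have e5 : ¬ (q % 3 = 1) := by omega
      rw [if_neg e1, if_neg e2, if_pos e3, if_neg e4, if_neg e5]
      ring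
  rw [sum_congr rfl h1, sum_sub_distrib, ← mul_sum]
  ring

theorem BN_succ (N : ℕ) : BN (N + 1) = BN N - ft N := by
  unfold BN
  rw [sum_range_succ]
  ring

theorem BN_diff (M r : ℕ) (hr : r < 4) : -1 ≤ BN (4 * M + r) - BN (4 * M) ∧
    BN (4 * M + r) - BN (4 * M) ≤ 1 := by
  have t0 := tmz_eq_or (4 * M)
  have t1 := tmz_eq_or (4 * M + 1)
  have t2 := tmz_eq_or (4 * M + 2)
  have b1 := BN_succ (4 * M)
  have b2 := BN_succ (4 * M + 1)
  have b3 := BN_succ (4 * M + 2)
  unfold ft at b1 b2 b3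
  have h : r = 0 ∨ r = 1 ∨ r = 2 ∨ r = 3 := by omega
  rcases h with h | h | h | h
  · subst h; simp
  · subst h
    split_ifs at b1 <;> omega
  · subst h
    have e : 4 * M + 2 = 4 * M + 1 + 1 := by ring
    rw [e, b2, b1]
    split_ifs <;> omega
  · subst h
    have e : 4 * M + 3 = 4 * M + 2 + 1 := by ring
    have e2 : 4 * M + 2 = 4 * M + 1 + 1 := by ring
    rw [e, b3, e2, b2, b1]
    rw [← e2]
    split_ifs <;> omega

theorem BN_rec (N : ℕ) : 3 * BN (N / 4) - 2 ≤ BN N ∧ BN N ≤ 3 * BN (N / 4) + 2 := by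
  have h1 : N = 4 * (N / 4) + N % 4 := (Nat.div_add_mod N 4).symm
  have h2 := BN_diff (N / 4) (N % 4) (Nat.mod_lt _ (by norm_num))
  rw [← h1, BN_four_mul] at h2
  have h3 := SN_bound (N / 4)
  omega

theorem BN_lower (j : ℕ) : ∀ N, 5 * 4 ^ j ≤ N → N < 20 * 4 ^ j → 3 ^ j + 1 ≤ BN N := by
  induction j with
  | zero =>
    intro N h1 h2
    have h1' : 5 ≤ N := by simpa using h1
    have h2' : N < 20 := by simpa using h2
    interval_cases N <;> decide
  | succ j ih =>
    intro N h1 h2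
    rw [pow_succ] at h1 h2
    have h3 := ih (N / 4) (by omega) (by omega)
    have h4 := (BN_rec N).1
    rw [pow_succ]
    linarith

theorem BN_upper (j : ℕ) : ∀ N, N < 4 ^ j → BN N ≤ 3 ^ j - 1 := by
  induction j with
  | zero =>
    intro N h
    have : N = 0 := by simpa using h
    subst this
    simp [BN]
  | succ j ih =>
    intro N h
    rw [pow_succ] at h
    have h3 := ih (N / 4) (by omega)
    have h4 := (BN_rec N).2
    rw [pow_succ]
    linarith

theorem FF_three_int (x : ℕ) : FF x 3 = ∑ n ∈ range x, if Nat.Coprime n 6 then - tmz n else 0 := by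
  classical
  unfold FF
  rw [sum_filter]
  apply sum_congr rfl
  intro n _
  have h1 : (∀ p : ℕ, p.Prime → p ≤ 3 → ¬ p ∣ n) ↔ Nat.Coprime n 6 := by
    rw [sifted_iff 3 n (le_refl _)]
    have h1 : PP 3 = ∅ := by decide
    rw [h1]
    simp
  by_cases h : Nat.Coprime n 6
  · rw [if_pos (h1.mpr h), if_pos h, signWeight_eq]
  · rw [if_neg (fun h2 => h (h1.mp h2)), if_neg h]

theorem FF_three_eq (x : ℕ) : FF x 3 = SN (x / 2) + BN (x / 2) := by
  rw [FF_three_int]
  set f : ℕ → ℤ := fun n => if Nat.Coprime n 6 then - tmz n else 0 with hf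
  have h1 : ∑ n ∈ range x, f n = ∑ n ∈ range (2 * (x / 2)), f n := by
    rcases Nat.mod_two_eq_zero_or_one x with h | h
    · have : 2 * (x / 2) = x := by omega
      rw [this]
    · have h5 : x = 2 * (x / 2) + 1 := by omega
      conv_lhs => rw [h5]
      rw [sum_range_succ]
      have h6 : f (2 * (x / 2)) = 0 := by
        simp only [hf]
        rw [if_neg]
        rw [coprime_six_iff]
        omega
      rw [h6, add_zero]
  rw [h1, sum_range_two_mul]
  unfold SN BN
  rw [← sub_eq_add_neg, ← sum_sub_distrib]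
  apply sum_congr rfl
  intro m _
  simp only [hf]
  unfold ft
  have e1 : ¬ Nat.Coprime (2 * m) 6 := by
    rw [coprime_six_iff]; omega
  rw [if_neg e1, tmz_two_mul_add_one]
  by_cases h : m % 3 = 1
  · have e2 : ¬ Nat.Coprime (2 * m + 1) 6 := by
      rw [coprime_six_iff]; omega
    rw [if_neg e2, if_pos h]
    ring
  · have e2 : Nat.Coprime (2 * m + 1) 6 := by
      rw [coprime_six_iff]; omega
    rw [if_pos e2, if_neg h]
    ring

/-- the exponent log 3 / log 4 -/
noncomputable def lam : ℝ := Real.log 3 / Real.log 4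

theorem four_rpow_lam : (4 : ℝ) ^ lam = 3 := by
  have h : lam = Real.logb 4 3 := rfl
  rw [h]
  exact Real.rpow_logb (by norm_num) (by norm_num) (by norm_num)

theorem four_pow_rpow (j : ℕ) : ((4 : ℝ) ^ j) ^ lam = 3 ^ j := by
  rw [← Real.rpow_natCast, ← Real.rpow_mul (by norm_num), mul_comm, Real.rpow_mul (by norm_num),
    four_rpow_lam, Real.rpow_natCast]

theorem lam_pos : 0 < lam := div_pos (Real.log_pos (by norm_num)) (Real.log_pos (by norm_num))

theorem lam_le_one : lam ≤ 1 := by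
  unfold lam
  rw [div_le_one (Real.log_pos (by norm_num))]
  exact Real.log_le_log (by norm_num) (by norm_num)

theorem FF_three_lower (x : ℕ) (hx : 10 ≤ x) : (1 / 40 : ℝ) * (x : ℝ) ^ lam ≤ (FF x 3 : ℤ) := by
  have hy : 5 ≤ x / 2 := by omega
  -- find j
  obtain ⟨j, hj1, hj2⟩ : ∃ j, 5 * 4 ^ j ≤ x / 2 ∧ x / 2 < 20 * 4 ^ j := by
    refine ⟨Nat.log 4 (x / 2 / 5), ?_, ?_⟩
    · have h1 := Nat.pow_log_le_self 4 (x := x / 2 / 5) (by omega)
      omega
    · have h1 := Nat.lt_pow_succ_log_self (b := 4) (by norm_num) (x / 2 / 5)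
      rw [pow_succ] at h1
      omega
  have h1 := BN_lower j _ hj1 hj2
  have h2 := (SN_bound (x / 2)).1
  have h3 : (3 : ℤ) ^ j ≤ FF x 3 := by
    rw [FF_three_eq]; linarith
  have h4 : (3 : ℝ) ^ j ≤ (FF x 3 : ℤ) := by exact_mod_cast h3
  refine le_trans ?_ h4
  have h5 : x ≤ 40 * 4 ^ j := by omega
  have h6 : (x : ℝ) ≤ 40 * 4 ^ j := by exact_mod_cast h5
  have h7 : (x : ℝ) ^ lam ≤ 40 ^ lam * 3 ^ j := by
    rw [← four_pow_rpow j, ← Real.mul_rpow (by norm_num) (by positivity)]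
    exact Real.rpow_le_rpow (by positivity) h6 lam_pos.le
  have h8 : (40 : ℝ) ^ lam ≤ 40 := by
    calc (40 : ℝ) ^ lam ≤ 40 ^ (1 : ℝ) := Real.rpow_le_rpow_of_exponent_le (by norm_num) lam_le_one
      _ = 40 := Real.rpow_one _
  have h9 : (0 : ℝ) < 3 ^ j := by positivity
  nlinarith

theorem FF_three_upper (x : ℕ) (hx : 2 ≤ x) : ((FF x 3 : ℤ) : ℝ) ≤ 3 * (x : ℝ) ^ lam := by
  have hy : 1 ≤ x / 2 := by omega
  set j := Nat.log 4 (x / 2) with hj
  have h1 := Nat.pow_log_le_self 4 (x := x / 2) (by omega)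
  have h2 := Nat.lt_pow_succ_log_self (b := 4) (by norm_num) (x / 2)
  rw [← hj] at h1 h2
  have h3 := BN_upper (j + 1) _ h2
  have h4 := (SN_bound (x / 2)).2
  have h5 : FF x 3 ≤ 3 ^ (j + 1) := by
    rw [FF_three_eq]; linarith
  have h6 : ((FF x 3 : ℤ) : ℝ) ≤ 3 ^ (j + 1) := by exact_mod_cast h5
  refine h6.trans ?_
  rw [pow_succ, mul_comm, ← four_pow_rpow j]
  apply mul_le_mul_of_nonneg_left _ (by norm_num)
  apply Real.rpow_le_rpow (by positivity) _ lam_pos.le
  have h7 : 4 ^ j ≤ x := by omega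
  exact_mod_cast h7

end Pool.Agent.Odious24
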