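import Mathlib
import Pool.Agent.Helper24.Odious.MainTerm

set_option autoImplicit false

namespace Pool.Agent.Odious24

open Finset

/-- the exponent log 3 / log 2 - 1 -/
noncomputable def th : ℝ := Real.log 3 / Real.log 2 - 1

theorem log_four : Real.log 4 = 2 * Real.log 2 := by
  rw [show (4 : ℝ) = 2 ^ 2 by norm_num, Real.log_pow]
  norm_num

theorem lam_eq : lam = (1 + th) / 2 := by
  unfold lam th
  rw [log_four]
  have := Real.log_pos (show (1 : ℝ) < 2 by norm_num)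
  field_simp
  ring

theorem two_rpow_th : (2 : ℝ) ^ th = 3 / 2 := by
  unfold th
  rw [Real.rpow_sub (by norm_num), Real.rpow_one]
  congr 1
  exact Real.rpow_logb (b := 2) (x := 3) (by norm_num) (by norm_num) (by norm_num)

theorem th_pos : 1 / 2 < th := by
  unfold th
  have h2 := Real.log_pos (show (1 : ℝ) < 2 by norm_num)
  have h3 : 3 / 2 * Real.log 2 < Real.log 3 := by
    have h4 : 3 * Real.log 2 < 2 * Real.log 3 := by
      have h5 : Real.log (2 ^ 3) < Real.log (3 ^ 2) := Real.log_lt_log (by norm_num) (by norm_num)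
      rw [Real.log_pow, Real.log_pow] at h5
      push_cast at h5
      exact h5
    linarith
  have h4 : 3 / 2 < Real.log 3 / Real.log 2 := by
    rw [lt_div_iff₀ h2]; exact h3
  linarith

theorem th_lt : th < 10 / 17 := by
  unfold th
  have h2 := Real.log_pos (show (1 : ℝ) < 2 by norm_num)
  have h4 : 17 * Real.log 3 < 27 * Real.log 2 := by
    have h5 : Real.log (3 ^ 17) < Real.log (2 ^ 27) := Real.log_lt_log (by norm_num) (by norm_num)
    rw [Real.log_pow, Real.log_pow] at h5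
    push_cast at h5
    exact h5
  have h4 : Real.log 3 / Real.log 2 < 27 / 17 := by
    rw [div_lt_iff₀ h2]; linarith
  linarith

theorem MM_sup (j d : ℕ) (hd : 0 < d) (hc : Nat.Coprime d 6) :
    MM j d ≤ 4 * (Real.sqrt 3 ^ j * Real.exp (-(j : ℝ) / (216 * (2 * Nat.log 2 d + 3)))) := by
  have hd' : (0 : ℝ) < d := by exact_mod_cast hd
  set E := Real.sqrt 3 ^ j * Real.exp (-(j : ℝ) / (216 * (2 * Nat.log 2 d + 3))) with hE
  have hE0 : 0 ≤ E := by positivity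
  unfold MM
  have h1 : ∀ a ∈ (range d).erase 0, (1 / 3) * ∑ b ∈ range 6, ‖TT j ((a : ℝ) / d + (b : ℝ) / 6)‖ ≤ 4 * E := by
    intro a ha
    rw [mem_erase, mem_range] at ha
    have h2 : ∀ b ∈ range 6, ‖TT j ((a : ℝ) / d + (b : ℝ) / 6)‖ ≤ 2 * E := by
      intro b _
      have h3 := norm_TT_rational d hd hc (a : ℤ) (b : ℤ) (by
        intro h4
        have h5 : d ∣ a := by exact_mod_cast h4
        have := Nat.le_of_dvd (Nat.pos_of_ne_zero ha.1) h5
        omega) j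
      push_cast at h3
      rw [mul_assoc] at h3
      exact h3
    have h4 := sum_le_sum h2
    rw [sum_const, card_range] at h4
    simp only [nsmul_eq_mul] at h4
    push_cast at h4
    linarith
  have h2 := sum_le_sum h1
  rw [sum_const, nsmul_eq_mul] at h2
  have h3 : (((range d).erase 0).card : ℝ) ≤ d := by
    have : ((range d).erase 0).card ≤ d := (card_le_card (erase_subset _ _)).trans (by simp)
    exact_mod_cast this
  have h4 : (((range d).erase 0).card : ℝ) * (4 * E) ≤ d * (4 * E) :=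
    mul_le_mul_of_nonneg_right h3 (by positivity)
  calc _ ≤ 1 / (d : ℝ) * (d * (4 * E)) := mul_le_mul_of_nonneg_left (h2.trans h4) (by positivity)
    _ = 4 * E := by field_simp

theorem MM_of_mean (j d : ℕ) (hd : 0 < d) (B : ℝ)
    (h : ∀ β : ℝ, ∑ a ∈ range d, ‖TT j ((a : ℝ) / d + β)‖ ≤ (d : ℝ) * B) : MM j d ≤ 2 * B := by
  have hd' : (0 : ℝ) < d := by exact_mod_cast hd
  unfold MM
  have h1 : ∑ a ∈ (range d).erase 0, (1 / 3) * ∑ b ∈ range 6, ‖TT j ((a : ℝ) / d + (b : ℝ) / 6)‖ ≤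
      ∑ a ∈ range d, (1 / 3) * ∑ b ∈ range 6, ‖TT j ((a : ℝ) / d + (b : ℝ) / 6)‖ := by
    apply sum_le_sum_of_subset_of_nonneg (erase_subset _ _)
    intro a _ _
    positivity
  rw [← mul_sum, ← mul_sum, sum_comm (s := range d)] at h1
  have h2 : ∑ b ∈ range 6, ∑ a ∈ range d, ‖TT j ((a : ℝ) / d + (b : ℝ) / 6)‖ ≤ ∑ b ∈ range 6, (d : ℝ) * B :=
    sum_le_sum (fun b _ => h _)
  rw [sum_const, card_range] at h2
  simp only [nsmul_eq_mul] at h2
  push_cast at h2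
  rw [← mul_sum]
  calc _ ≤ 1 / (d : ℝ) * (d * (2 * B)) := by
        apply mul_le_mul_of_nonneg_left _ (by positivity)
        refine h1.trans ?_
        linarith
    _ = 2 * B := by field_simp

theorem MM_two (i r d : ℕ) (hd : 0 < d) (hc : Nat.Coprime d 6) (hi : 2 ^ i ≤ d) :
    MM (i + i + r) d ≤ 4 * 2 ^ i * Real.sqrt 3 ^ r := by
  have h := MM_of_mean (i + i + r) d hd (2 ^ i * (2 * Real.sqrt 3 ^ r)) (by
    intro β
    have := mean_two d i hd (Nat.Coprime.coprime_dvd_right (by norm_num) hc) hi r β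
    rw [mul_assoc] at this
    exact this)
  linarith

theorem MM_four (i r d : ℕ) (hd : 0 < d) (hc : Nat.Coprime d 6) (hi : 2 ^ i ≤ d) :
    MM (i + i + i + i + r) d ≤ 48 / 5 * (103 / 20) ^ i * Real.sqrt 3 ^ r := by
  have h := MM_of_mean (i + i + i + i + r) d hd ((12 / 5 * (103 / 20) ^ i) * (2 * Real.sqrt 3 ^ r)) (by
    intro β
    have := mean_four d i hd (Nat.Coprime.coprime_dvd_right (by norm_num) hc) hi r β
    rw [mul_assoc] at this
    exact this)
  linarith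

theorem sqrt3_sq : Real.sqrt 3 ^ 2 = 3 := Real.sq_sqrt (by norm_num)

theorem MM_four' (j d : ℕ) (hd : 0 < d) (hc : Nat.Coprime d 6) (h : 4 * Nat.log 2 d ≤ j) :
    MM j d ≤ 17 * (Real.sqrt 3 ^ j * (d : ℝ) ^ (-(4 / 5) : ℝ)) := by
  have hd' : (0 : ℝ) < d := by exact_mod_cast hd
  set i := Nat.log 2 d with hi
  have h1 : 2 ^ i ≤ d := Nat.pow_log_le_self 2 hd.ne'
  have h2 : d < 2 ^ (i + 1) := Nat.lt_pow_succ_log_self (by norm_num) d
  have h3 := MM_four i (j - 4 * i) d hd hc h1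
  have h4 : i + i + i + i + (j - 4 * i) = j := by omega
  rw [h4] at h3
  refine h3.trans ?_
  have h5 : Real.sqrt 3 ^ j = 9 ^ i * Real.sqrt 3 ^ (j - 4 * i) := by
    have h6 : (9 : ℝ) ^ i = Real.sqrt 3 ^ (4 * i) := by
      rw [pow_mul]
      congr 1
      have : Real.sqrt 3 ^ 4 = (Real.sqrt 3 ^ 2) ^ 2 := by ring
      rw [this, sqrt3_sq]; norm_num
    rw [h6, ← pow_add]
    congr 1
    omega
  rw [h5]
  -- (103/20)^i <= (180/103) 9^i d^(-4/5)
  have h6 : (d : ℝ) ^ (4 / 5 : ℝ) ≤ (180 / 103) ^ (i + 1) := by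
    have h7 : (d : ℝ) ≤ 2 ^ (i + 1) := by exact_mod_cast h2.le
    calc (d : ℝ) ^ (4 / 5 : ℝ) ≤ ((2 : ℝ) ^ (i + 1)) ^ (4 / 5 : ℝ) :=
          Real.rpow_le_rpow hd'.le h7 (by norm_num)
      _ = ((2 : ℝ) ^ (4 / 5 : ℝ)) ^ (i + 1) := by
          rw [← Real.rpow_natCast, ← Real.rpow_mul (by norm_num), mul_comm, Real.rpow_mul (by norm_num),
            Real.rpow_natCast]
      _ ≤ (180 / 103) ^ (i + 1) := by
          apply pow_le_pow_left₀ (by positivity)
          have h8 : ((2 : ℝ) ^ (4 / 5 : ℝ)) ^ 5 ≤ (180 / 103 : ℝ) ^ 5 := by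
            rw [← Real.rpow_natCast, ← Real.rpow_mul (by norm_num)]
            norm_num
          exact (pow_le_pow_iff_left₀ (by positivity) (by norm_num) (by norm_num)).mp h8
  have h7 : (103 / 180 : ℝ) ^ i ≤ 180 / 103 * (d : ℝ) ^ (-(4 / 5) : ℝ) := by
    rw [Real.rpow_neg hd'.le]
    have h8 : (0 : ℝ) < (d : ℝ) ^ (4 / 5 : ℝ) := Real.rpow_pos_of_pos hd' _
    rw [← div_eq_mul_inv, le_div_iff₀ h8]
    have h9 : (103 / 180 : ℝ) ^ i * (180 / 103) ^ (i + 1) = 180 / 103 := by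
      rw [pow_succ, ← mul_assoc, ← mul_pow]
      norm_num
    rw [← h9]
    exact mul_le_mul_of_nonneg_left h6 (by positivity)
  have h8 : (103 / 20 : ℝ) ^ i = 9 ^ i * (103 / 180) ^ i := by
    rw [← mul_pow]; norm_num
  rw [h8]
  have h9 : 0 ≤ 9 ^ i * Real.sqrt 3 ^ (j - 4 * i) := by positivity
  have h10 := mul_le_mul_of_nonneg_left h7 h9
  have h11 : 0 ≤ 9 ^ i * Real.sqrt 3 ^ (j - 4 * i) * (d : ℝ) ^ (-(4 / 5) : ℝ) := by positivity
  nlinarith

theorem MM_two' (j d : ℕ) (hd : 0 < d) (hc : Nat.Coprime d 6) (h : 2 * Nat.log 2 d ≤ j) :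
    MM j d ≤ 6 * (Real.sqrt 3 ^ j * (d : ℝ) ^ (-th)) := by
  have hd' : (0 : ℝ) < d := by exact_mod_cast hd
  set i := Nat.log 2 d with hi
  have h1 : 2 ^ i ≤ d := Nat.pow_log_le_self 2 hd.ne'
  have h2 : d < 2 ^ (i + 1) := Nat.lt_pow_succ_log_self (by norm_num) d
  have h3 := MM_two i (j - 2 * i) d hd hc h1
  have h4 : i + i + (j - 2 * i) = j := by omega
  rw [h4] at h3
  refine h3.trans ?_
  have h5 : Real.sqrt 3 ^ j = 3 ^ i * Real.sqrt 3 ^ (j - 2 * i) := by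
    have h6 : (3 : ℝ) ^ i = Real.sqrt 3 ^ (2 * i) := by
      rw [pow_mul, sqrt3_sq]
    rw [h6, ← pow_add]
    congr 1
    omega
  rw [h5]
  have h6 : (d : ℝ) ^ th ≤ (3 / 2) ^ (i + 1) := by
    have h7 : (d : ℝ) ≤ 2 ^ (i + 1) := by exact_mod_cast h2.le
    calc (d : ℝ) ^ th ≤ ((2 : ℝ) ^ (i + 1)) ^ th :=
          Real.rpow_le_rpow hd'.le h7 (by linarith [th_pos])
      _ = ((2 : ℝ) ^ th) ^ (i + 1) := by
          rw [← Real.rpow_natCast, ← Real.rpow_mul (by norm_num), mul_comm, Real.rpow_mul (by norm_num),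
            Real.rpow_natCast]
      _ = (3 / 2) ^ (i + 1) := by rw [two_rpow_th]
  have h7 : (2 / 3 : ℝ) ^ i ≤ 3 / 2 * (d : ℝ) ^ (-th) := by
    rw [Real.rpow_neg hd'.le]
    have h8 : (0 : ℝ) < (d : ℝ) ^ th := Real.rpow_pos_of_pos hd' _
    rw [← div_eq_mul_inv, le_div_iff₀ h8]
    have h9 : (2 / 3 : ℝ) ^ i * (3 / 2) ^ (i + 1) = 3 / 2 := by
      rw [pow_succ, ← mul_assoc, ← mul_pow]
      norm_num
    rw [← h9]
    exact mul_le_mul_of_nonneg_left h6 (by positivity)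
  have h8 : (2 : ℝ) ^ i = 3 ^ i * (2 / 3) ^ i := by
    rw [← mul_pow]; norm_num
  rw [h8]
  have h9 : 0 ≤ 3 ^ i * Real.sqrt 3 ^ (j - 2 * i) := by positivity
  have h10 := mul_le_mul_of_nonneg_left h7 h9
  nlinarith

theorem MM_small (j d : ℕ) (hd : 0 < d) (hc : Nat.Coprime d 6) (h : j < 2 * Nat.log 2 d) :
    MM j d ≤ 7 * Real.sqrt 2 ^ j := by
  set i := Nat.log 2 d with hi
  have h1 : 2 ^ i ≤ d := Nat.pow_log_le_self 2 hd.ne'
  have h2 : 2 ^ (j / 2) ≤ d := (Nat.pow_le_pow_right (by norm_num) (by omega)).trans h1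
  have h3 := MM_two (j / 2) (j % 2) d hd hc h2
  have h4 : j / 2 + j / 2 + j % 2 = j := by omega
  rw [h4] at h3
  refine h3.trans ?_
  have hs2 : Real.sqrt 2 ^ 2 = 2 := Real.sq_sqrt (by norm_num)
  have h5 : Real.sqrt 2 ^ j = 2 ^ (j / 2) * Real.sqrt 2 ^ (j % 2) := by
    have h6 : (2 : ℝ) ^ (j / 2) = Real.sqrt 2 ^ (2 * (j / 2)) := by
      rw [pow_mul, hs2]
    rw [h6, ← pow_add]
    congr 1
    omega
  rw [h5]
  have h6 : Real.sqrt 3 ≤ 7 / 4 := by
    rw [Real.sqrt_le_left (by norm_num)]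
    norm_num
  have h7 : 4 * Real.sqrt 3 ^ (j % 2) ≤ 7 * Real.sqrt 2 ^ (j % 2) := by
    have h8 : j % 2 = 0 ∨ j % 2 = 1 := by omega
    rcases h8 with h8 | h8
    · rw [h8]; norm_num
    · rw [h8, pow_one, pow_one]
      have h9 : 1 ≤ Real.sqrt 2 := Real.one_le_sqrt.mpr (by norm_num)
      linarith
  have h8 : (0 : ℝ) < 2 ^ (j / 2) := by positivity
  nlinarith

theorem geom_le (ρ : ℝ) (hρ : 5 / 4 ≤ ρ) (k : ℕ) : ∑ j ∈ range (k + 1), ρ ^ j ≤ 5 * ρ ^ k := by
  induction k with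
  | zero => simp
  | succ k ih =>
    rw [sum_range_succ]
    have h1 : 0 < ρ ^ k := by positivity
    rw [pow_succ]
    nlinarith

end Pool.Agent.Odious24
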