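import Mathlib
import Pool.Agent.Helper24.Odious.PerD

set_option autoImplicit false

namespace Pool.Agent.Odious24

open Finset

theorem sqrt3_ge : 17 / 10 ≤ Real.sqrt 3 := by
  apply Real.le_sqrt_of_sq_le
  norm_num

theorem sqrt3_le : Real.sqrt 3 ≤ 7 / 4 := by
  rw [Real.sqrt_le_left (by norm_num)]
  norm_num

theorem sqrt2_ge : 5 / 4 ≤ Real.sqrt 2 := by
  apply Real.le_sqrt_of_sq_le
  norm_num

theorem sqrt2_le : Real.sqrt 2 ≤ 2 := by
  rw [Real.sqrt_le_left (by norm_num)]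
  norm_num

theorem sum_MM_sup (k d : ℕ) (hd : 0 < d) (hc : Nat.Coprime d 6) :
    ∑ j ∈ range (k + 1), MM j d ≤
      20 * (Real.sqrt 3 ^ k * Real.exp (-(k : ℝ) / (216 * (2 * Nat.log 2 d + 3)))) := by
  set w : ℝ := 2 * Nat.log 2 d + 3 with hw
  have hw3 : 3 ≤ w := by
    rw [hw]
    have : (0 : ℝ) ≤ Nat.log 2 d := by positivity
    linarith
  set ρ : ℝ := Real.sqrt 3 * Real.exp (-1 / (216 * w)) with hρ
  have h1 : ∀ j : ℕ, Real.sqrt 3 ^ j * Real.exp (-(j : ℝ) / (216 * w)) = ρ ^ j := by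
    intro j
    rw [hρ, mul_pow, ← Real.exp_nat_mul]
    congr 2
    ring
  have h2 : 5 / 4 ≤ ρ := by
    have h3 := Real.add_one_le_exp (-1 / (216 * w))
    have h4 : -1 / 648 ≤ -1 / (216 * w) := by
      rw [div_le_div_iff₀ (by norm_num) (by positivity)]
      linarith
    have h5 := sqrt3_ge
    have h6 : 1 - 1 / 648 ≤ Real.exp (-1 / (216 * w)) := by linarith
    rw [hρ]
    nlinarith [Real.exp_pos (-1 / (216 * w))]
  have h3 : ∀ j ∈ range (k + 1), MM j d ≤ 4 * ρ ^ j := by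
    intro j _
    rw [← h1 j]
    exact MM_sup j d hd hc
  refine (sum_le_sum h3).trans ?_
  rw [← mul_sum, h1 k]
  have h4 := geom_le ρ h2 k
  linarith

theorem sum_MM_gen (η : ℝ) (hη0 : 0 < η) (hη1 : η ≤ 1 / 4) (k d : ℕ) (hd : 0 < d) (hc : Nat.Coprime d 6) :
    ∑ j ∈ range (k + 1), MM j d ≤
      85 * (Real.sqrt 3 ^ k * (d : ℝ) ^ (-(4 / 5) : ℝ)) +
      30 * (Real.sqrt 3 ^ k * (2 : ℝ) ^ (-(η * k / 4)) * (d : ℝ) ^ (-(th - η))) +
      35 * Real.sqrt 2 ^ k := by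
  have hd' : (0 : ℝ) < d := by exact_mod_cast hd
  set ρ : ℝ := Real.sqrt 3 * (2 : ℝ) ^ (-(η / 4)) with hρ
  have h1 : ∀ j : ℕ, Real.sqrt 3 ^ j * (2 : ℝ) ^ (-(η * j / 4)) = ρ ^ j := by
    intro j
    rw [hρ, mul_pow, ← Real.rpow_natCast ((2 : ℝ) ^ (-(η / 4))), ← Real.rpow_mul (by norm_num)]
    congr 2
    ring
  have h2 : 5 / 4 ≤ ρ := by
    have h3 : (3 / 4 : ℝ) ≤ (2 : ℝ) ^ (-(η / 4)) := by
      have h4 : (2 : ℝ) ^ (-(1 / 4) : ℝ) ≤ (2 : ℝ) ^ (-(η / 4)) :=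
        Real.rpow_le_rpow_of_exponent_le (by norm_num) (by linarith)
      refine le_trans ?_ h4
      have h5 : (0 : ℝ) ≤ (2 : ℝ) ^ (-(1 / 4) : ℝ) := by positivity
      rw [← pow_le_pow_iff_left₀ (by norm_num) h5 (by norm_num : (4 : ℕ) ≠ 0)]
      rw [← Real.rpow_natCast ((2 : ℝ) ^ (-(1 / 4) : ℝ)), ← Real.rpow_mul (by norm_num)]
      norm_num
    have h5 := sqrt3_ge
    rw [hρ]
    nlinarith
  have h3 : ∀ j ∈ range (k + 1), MM j d ≤ 17 * (Real.sqrt 3 ^ j * (d : ℝ) ^ (-(4 / 5) : ℝ)) +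
      6 * (ρ ^ j * (d : ℝ) ^ (-(th - η))) + 7 * Real.sqrt 2 ^ j := by
    intro j _
    have e1 : 0 ≤ 17 * (Real.sqrt 3 ^ j * (d : ℝ) ^ (-(4 / 5) : ℝ)) := by positivity
    have hρ0 : 0 < ρ := by linarith
    have e2 : 0 ≤ 6 * (ρ ^ j * (d : ℝ) ^ (-(th - η))) := by positivity
    have e3 : 0 ≤ 7 * Real.sqrt 2 ^ j := by positivity
    rcases lt_or_ge j (2 * Nat.log 2 d) with h | h
    · have := MM_small j d hd hc h
      linarith
    · rcases lt_or_ge j (4 * Nat.log 2 d) with h4 | h4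
      · have h5 := MM_two' j d hd hc h
        have h6 : (d : ℝ) ^ (-th) ≤ (2 : ℝ) ^ (-(η * j / 4)) * (d : ℝ) ^ (-(th - η)) := by
          have h7 : (d : ℝ) ^ (-th) = (d : ℝ) ^ (-η) * (d : ℝ) ^ (-(th - η)) := by
            rw [← Real.rpow_add hd']
            congr 1
            ring
          rw [h7]
          apply mul_le_mul_of_nonneg_right _ (by positivity)
          have h8 : 2 ^ (Nat.log 2 d) ≤ d := Nat.pow_log_le_self 2 hd.ne'
          have h9 : ((2 : ℝ) ^ (Nat.log 2 d : ℝ)) ≤ d := by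
            rw [Real.rpow_natCast]
            exact_mod_cast h8
          calc (d : ℝ) ^ (-η) ≤ ((2 : ℝ) ^ (Nat.log 2 d : ℝ)) ^ (-η) :=
                Real.rpow_le_rpow_of_nonpos (by positivity) h9 (by linarith)
            _ = (2 : ℝ) ^ ((Nat.log 2 d : ℝ) * (-η)) := by
                rw [Real.rpow_mul (by norm_num)]
            _ ≤ (2 : ℝ) ^ (-(η * j / 4)) := by
                apply Real.rpow_le_rpow_of_exponent_le (by norm_num)
                have h10 : (j : ℝ) ≤ 4 * Nat.log 2 d := by exact_mod_cast h4.le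
                nlinarith
        have h7 : 0 ≤ Real.sqrt 3 ^ j := by positivity
        have h8 := mul_le_mul_of_nonneg_left h6 h7
        rw [← mul_assoc, h1 j] at h8
        linarith
      · have := MM_four' j d hd hc h4
        linarith
  refine (sum_le_sum h3).trans ?_
  rw [sum_add_distrib, sum_add_distrib, ← mul_sum, ← mul_sum, ← mul_sum, ← sum_mul, ← sum_mul, h1 k]
  have g1 := geom_le (Real.sqrt 3) (by linarith [sqrt3_ge]) k
  have g2 := geom_le ρ h2 k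
  have g3 := geom_le (Real.sqrt 2) sqrt2_ge k
  have p1 : 0 ≤ (d : ℝ) ^ (-(4 / 5) : ℝ) := by positivity
  have p2 : 0 ≤ (d : ℝ) ^ (-(th - η)) := by positivity
  have q1 := mul_le_mul_of_nonneg_right g1 p1
  have q2 := mul_le_mul_of_nonneg_right g2 p2
  linarith

theorem four_rpow_half : (4 : ℝ) ^ (1 / 2 : ℝ) = 2 := by
  rw [show (4 : ℝ) = 2 ^ (2 : ℝ) by norm_num, ← Real.rpow_mul (by norm_num)]
  norm_num

theorem two_rpow_lam : (2 : ℝ) ^ lam = Real.sqrt 3 := by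
  have h1 : ((2 : ℝ) ^ lam) ^ 2 = 3 := by
    rw [← Real.rpow_natCast, ← Real.rpow_mul (by norm_num), mul_comm, Real.rpow_mul (by norm_num)]
    have h2 : (2 : ℝ) ^ ((2 : ℕ) : ℝ) = 4 := by norm_num
    rw [h2, four_rpow_lam]
  have h2 : (0 : ℝ) ≤ (2 : ℝ) ^ lam := by positivity
  rw [← h1, Real.sqrt_sq h2]

theorem sqrt3_pow_le (x k : ℕ) (hk : 2 ^ k ≤ 2 * x) : Real.sqrt 3 ^ k ≤ 2 * (x : ℝ) ^ lam := by
  have h1 : Real.sqrt 3 ^ k = ((2 : ℝ) ^ k) ^ lam := by
    rw [← two_rpow_lam, ← Real.rpow_natCast, ← Real.rpow_natCast, ← Real.rpow_mul (by norm_num),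
      ← Real.rpow_mul (by norm_num), mul_comm]
  have h2 : ((2 : ℝ) ^ k) ≤ 2 * x := by exact_mod_cast hk
  rw [h1]
  calc ((2 : ℝ) ^ k) ^ lam ≤ (2 * (x : ℝ)) ^ lam := Real.rpow_le_rpow (by positivity) h2 lam_pos.le
    _ = (2 : ℝ) ^ lam * (x : ℝ) ^ lam := Real.mul_rpow (by norm_num) (by positivity)
    _ ≤ 2 * (x : ℝ) ^ lam := by
        apply mul_le_mul_of_nonneg_right _ (by positivity)
        rw [two_rpow_lam]
        linarith [sqrt3_le]

theorem sqrt2_pow_le (x k : ℕ) (hk : 2 ^ k ≤ 2 * x) : Real.sqrt 2 ^ k ≤ 2 * (x : ℝ) ^ (1 / 2 : ℝ) := by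
  have h1 : Real.sqrt 2 ^ k = ((2 : ℝ) ^ k) ^ (1 / 2 : ℝ) := by
    rw [Real.sqrt_eq_rpow, ← Real.rpow_natCast, ← Real.rpow_natCast, ← Real.rpow_mul (by norm_num),
      ← Real.rpow_mul (by norm_num), mul_comm]
  have h2 : ((2 : ℝ) ^ k) ≤ 2 * x := by exact_mod_cast hk
  rw [h1]
  calc ((2 : ℝ) ^ k) ^ (1 / 2 : ℝ) ≤ (2 * (x : ℝ)) ^ (1 / 2 : ℝ) := Real.rpow_le_rpow (by positivity) h2 (by norm_num)
    _ = (2 : ℝ) ^ (1 / 2 : ℝ) * (x : ℝ) ^ (1 / 2 : ℝ) := Real.mul_rpow (by norm_num) (by positivity)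
    _ ≤ 2 * (x : ℝ) ^ (1 / 2 : ℝ) := by
        apply mul_le_mul_of_nonneg_right _ (by positivity)
        rw [← Real.sqrt_eq_rpow]
        exact sqrt2_le

/-- The bound for one modulus. -/
theorem RR_bound (η : ℝ) (hη0 : 0 < η) (hη1 : η ≤ 1 / 4) (x k d : ℕ) (hx : 1 ≤ x) (hxk : x < 2 ^ k)
    (hk : 2 ^ k ≤ 2 * x) (hd : 0 < d) (hc : Nat.Coprime d 6) (Q E : ℝ) (hQ : 1 ≤ Q)
    (hE1 : Q ^ (-(1 / 200) : ℝ) ≤ E)
    (hE2 : ∀ e : ℕ, 0 < e → (e : ℝ) ≤ Q → Q * Real.exp (-(k : ℝ) / (216 * (2 * Nat.log 2 e + 3))) ≤ E) :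
    ‖RR x d‖ ≤ 132 * ((x : ℝ) ^ (lam - η / 4) * (d : ℝ) ^ (-(th - η))) +
      170 * ((x : ℝ) ^ lam * E * (d : ℝ) ^ (-(159 / 200) : ℝ)) := by
  have hd' : (0 : ℝ) < d := by exact_mod_cast hd
  have hd1 : (1 : ℝ) ≤ d := by exact_mod_cast hd
  have hx' : (0 : ℝ) < x := by exact_mod_cast hx
  have hx1 : (1 : ℝ) ≤ x := by exact_mod_cast hx
  have hQ0 : 0 < Q := by linarith
  have hE0 : 0 < E := lt_of_lt_of_le (Real.rpow_pos_of_pos hQ0 _) hE1
  have hth := th_pos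
  have hth2 := th_lt
  have hlam := lam_eq
  have hs : 0 < th - η := by linarith
  set A := (x : ℝ) ^ (lam - η / 4) * (d : ℝ) ^ (-(th - η)) with hA
  have hA0 : 0 ≤ A := by positivity
  set B := (x : ℝ) ^ lam * E * (d : ℝ) ^ (-(159 / 200) : ℝ) with hB
  have hB0 : 0 ≤ B := by positivity
  have hmono : (x : ℝ) ^ (lam - η / 2) ≤ (x : ℝ) ^ (lam - η / 4) :=
    Real.rpow_le_rpow_of_exponent_le hx1 (by linarith)
  rcases lt_or_ge (x : ℝ) ((d : ℝ) ^ 2) with hlarge | hsmall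
  · -- large modulus
    have h1 := RR_trivial x d hd
    have h2 : 2 * (x : ℝ) / d ≤ 2 * A := by
      have h3 : (x : ℝ) / d ≤ (x : ℝ) ^ (lam - η / 2) * (d : ℝ) ^ (-(th - η)) := by
        have h4 : (x : ℝ) / d = x * ((d : ℝ) ^ (-(1 - (th - η))) * (d : ℝ) ^ (-(th - η))) := by
          rw [← Real.rpow_add hd']
          have : -(1 - (th - η)) + -(th - η) = (-1 : ℝ) := by ring
          rw [this, Real.rpow_neg_one]
          rfl
        rw [h4, ← mul_assoc]
        apply mul_le_mul_of_nonneg_right _ (by positivity)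
        have h5 : (x : ℝ) ^ (1 / 2 : ℝ) ≤ d := by
          calc (x : ℝ) ^ (1 / 2 : ℝ) ≤ ((d : ℝ) ^ 2) ^ (1 / 2 : ℝ) :=
                Real.rpow_le_rpow hx'.le hlarge.le (by norm_num)
            _ = d := by
                rw [← Real.rpow_natCast, ← Real.rpow_mul hd'.le]
                norm_num
        have h6 : (d : ℝ) ^ (-(1 - (th - η))) ≤ ((x : ℝ) ^ (1 / 2 : ℝ)) ^ (-(1 - (th - η))) :=
          Real.rpow_le_rpow_of_nonpos (by positivity) h5 (by linarith)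
        calc (x : ℝ) * (d : ℝ) ^ (-(1 - (th - η))) ≤ x * ((x : ℝ) ^ (1 / 2 : ℝ)) ^ (-(1 - (th - η))) :=
              mul_le_mul_of_nonneg_left h6 hx'.le
          _ = (x : ℝ) ^ (lam - η / 2) := by
              rw [← Real.rpow_mul hx'.le]
              nth_rewrite 1 [← Real.rpow_one (x : ℝ)]
              rw [← Real.rpow_add hx']
              congr 1
              rw [hlam]
              ring
      have h4 : (x : ℝ) ^ (lam - η / 2) * (d : ℝ) ^ (-(th - η)) ≤ A := by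
        rw [hA]
        exact mul_le_mul_of_nonneg_right hmono (by positivity)
      have h5 : 2 * (x : ℝ) / d = 2 * (x / d) := by ring
      rw [h5]
      linarith
    linarith
  · have h1 := RR_le_MM x d k hd hxk
    have h3k := sqrt3_pow_le x k hk
    have h2k := sqrt2_pow_le x k hk
    rcases le_or_gt (d : ℝ) Q with hdQ | hdQ
    · -- small modulus
      have h2 := sum_MM_sup k d hd hc
      have h3 := hE2 d hd hdQ
      set X := Real.exp (-(k : ℝ) / (216 * (2 * Nat.log 2 d + 3))) with hX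
      have hX0 : 0 < X := Real.exp_pos _
      have h4 : (1 : ℝ) ≤ Q * (d : ℝ) ^ (-(159 / 200) : ℝ) := by
        have h5 : (d : ℝ) ^ (159 / 200 : ℝ) ≤ Q := by
          calc (d : ℝ) ^ (159 / 200 : ℝ) ≤ (d : ℝ) ^ (1 : ℝ) :=
                Real.rpow_le_rpow_of_exponent_le hd1 (by norm_num)
            _ = d := Real.rpow_one _
            _ ≤ Q := hdQ
        rw [Real.rpow_neg hd'.le, ← div_eq_mul_inv, le_div_iff₀ (Real.rpow_pos_of_pos hd' _)]
        linarith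
      have h5 : X ≤ E * (d : ℝ) ^ (-(159 / 200) : ℝ) := by
        calc X = X * 1 := (mul_one _).symm
          _ ≤ X * (Q * (d : ℝ) ^ (-(159 / 200) : ℝ)) := mul_le_mul_of_nonneg_left h4 hX0.le
          _ = (Q * X) * (d : ℝ) ^ (-(159 / 200) : ℝ) := by ring
          _ ≤ E * (d : ℝ) ^ (-(159 / 200) : ℝ) := mul_le_mul_of_nonneg_right h3 (by positivity)
      have h6 : Real.sqrt 3 ^ k * X ≤ (2 * (x : ℝ) ^ lam) * (E * (d : ℝ) ^ (-(159 / 200) : ℝ)) :=
        mul_le_mul h3k h5 hX0.le (by positivity)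
      have h7 : (2 * (x : ℝ) ^ lam) * (E * (d : ℝ) ^ (-(159 / 200) : ℝ)) = 2 * B := by
        rw [hB]; ring
      rw [h7] at h6
      linarith
    · have h2 := sum_MM_gen η hη0 hη1 k d hd hc
      have e1 : Real.sqrt 3 ^ k * (d : ℝ) ^ (-(4 / 5) : ℝ) ≤ 2 * B := by
        have h3 : (d : ℝ) ^ (-(4 / 5) : ℝ) ≤ E * (d : ℝ) ^ (-(159 / 200) : ℝ) := by
          have h4 : (d : ℝ) ^ (-(4 / 5) : ℝ) = (d : ℝ) ^ (-(1 / 200) : ℝ) * (d : ℝ) ^ (-(159 / 200) : ℝ) := by
            rw [← Real.rpow_add hd']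
            norm_num
          rw [h4]
          apply mul_le_mul_of_nonneg_right _ (by positivity)
          refine le_trans ?_ hE1
          exact Real.rpow_le_rpow_of_nonpos hQ0 hdQ.le (by norm_num)
        calc _ ≤ (2 * (x : ℝ) ^ lam) * (E * (d : ℝ) ^ (-(159 / 200) : ℝ)) :=
              mul_le_mul h3k h3 (by positivity) (by positivity)
          _ = 2 * B := by rw [hB]; ring
      have e2 : Real.sqrt 3 ^ k * (2 : ℝ) ^ (-(η * k / 4)) * (d : ℝ) ^ (-(th - η)) ≤ 2 * A := by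
        have h3 : (2 : ℝ) ^ (-(η * k / 4)) ≤ (x : ℝ) ^ (-(η / 4)) := by
          have h4 : (x : ℝ) ≤ 2 ^ k := by exact_mod_cast hxk.le
          have h5 : ((2 : ℝ) ^ k) ^ (-(η / 4)) ≤ (x : ℝ) ^ (-(η / 4)) :=
            Real.rpow_le_rpow_of_nonpos hx' h4 (by linarith)
          refine le_trans (le_of_eq ?_) h5
          rw [← Real.rpow_natCast, ← Real.rpow_mul (by norm_num)]
          congr 1
          ring
        calc _ ≤ (2 * (x : ℝ) ^ lam) * (x : ℝ) ^ (-(η / 4)) * (d : ℝ) ^ (-(th - η)) := by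
              apply mul_le_mul_of_nonneg_right _ (by positivity)
              exact mul_le_mul h3k h3 (by positivity) (by positivity)
          _ = 2 * A := by
              rw [hA, show lam - η / 4 = lam + -(η / 4) by ring, Real.rpow_add hx']
              ring
      have e3 : Real.sqrt 2 ^ k ≤ 2 * A := by
        have h3 : (1 : ℝ) ≤ (x : ℝ) ^ ((th - η) / 2) * (d : ℝ) ^ (-(th - η)) := by
          have h4 : (d : ℝ) ^ (th - η) ≤ (x : ℝ) ^ ((th - η) / 2) := by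
            calc (d : ℝ) ^ (th - η) = ((d : ℝ) ^ 2) ^ ((th - η) / 2) := by
                  rw [← Real.rpow_natCast, ← Real.rpow_mul hd'.le]
                  congr 1
                  push_cast
                  ring
              _ ≤ (x : ℝ) ^ ((th - η) / 2) := Real.rpow_le_rpow (by positivity) hsmall (by linarith)
          rw [Real.rpow_neg hd'.le, ← div_eq_mul_inv, le_div_iff₀ (Real.rpow_pos_of_pos hd' _)]
          linarith
        calc Real.sqrt 2 ^ k ≤ 2 * (x : ℝ) ^ (1 / 2 : ℝ) := h2k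
          _ = (2 * (x : ℝ) ^ (1 / 2 : ℝ)) * 1 := by ring
          _ ≤ (2 * (x : ℝ) ^ (1 / 2 : ℝ)) * ((x : ℝ) ^ ((th - η) / 2) * (d : ℝ) ^ (-(th - η))) :=
              mul_le_mul_of_nonneg_left h3 (by positivity)
          _ = 2 * ((x : ℝ) ^ (lam - η / 2) * (d : ℝ) ^ (-(th - η))) := by
              have h5 : (x : ℝ) ^ (lam - η / 2) = (x : ℝ) ^ (1 / 2 : ℝ) * (x : ℝ) ^ ((th - η) / 2) := by
                rw [← Real.rpow_add hx']
                congr 1
                rw [hlam]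
                ring
              rw [h5]
              ring
          _ ≤ 2 * A := by
              rw [hA]
              apply mul_le_mul_of_nonneg_left _ (by norm_num)
              exact mul_le_mul_of_nonneg_right hmono (by positivity)
      linarith

end Pool.Agent.Odious24
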