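import Mathlib
import Pool.Agent.Helper24.Odious.Combine

set_option autoImplicit false

namespace Pool.Agent.Odious24

open Finset

theorem sum_rpow_le (t : ℝ) (ht0 : 0 < t) (ht1 : t < 1) (z : ℕ) :
    ∑ n ∈ range z, ((n : ℝ) + 1) ^ (-t) ≤ (z : ℝ) ^ (1 - t) / (1 - t) := by
  induction z with
  | zero =>
    simp only [range_zero, sum_empty, Nat.cast_zero]
    rw [Real.zero_rpow (by linarith)]
    simp
  | succ z ih =>
    rw [sum_range_succ]
    have hu : 0 < 1 - t := by linarith
    have hN : (0 : ℝ) < (z : ℝ) + 1 := by positivity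
    have h1 : (z : ℝ) ^ (1 - t) + (1 - t) * ((z : ℝ) + 1) ^ (-t) ≤ ((z : ℝ) + 1) ^ (1 - t) := by
      have h2 : (z : ℝ) = ((z : ℝ) + 1) * (1 + -(1 / ((z : ℝ) + 1))) := by
        field_simp
        ring
      have h3 : (-1 : ℝ) ≤ -(1 / ((z : ℝ) + 1)) := by
        have : 1 / ((z : ℝ) + 1) ≤ 1 := by
          rw [div_le_one hN]
          have : (0 : ℝ) ≤ z := by positivity
          linarith
        linarith
      have h4 := rpow_one_add_le_one_add_mul_self h3 hu.le (by linarith : 1 - t ≤ 1)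
      have h5 : (z : ℝ) ^ (1 - t) = ((z : ℝ) + 1) ^ (1 - t) * (1 + -(1 / ((z : ℝ) + 1))) ^ (1 - t) := by
        rw [← Real.mul_rpow hN.le (by linarith), ← h2]
      have h6 : ((z : ℝ) + 1) ^ (1 - t) = ((z : ℝ) + 1) ^ (-t) * ((z : ℝ) + 1) := by
        rw [show (1 - t) = -t + 1 by ring, Real.rpow_add_one hN.ne']
      have h7 : (0 : ℝ) < ((z : ℝ) + 1) ^ (1 - t) := Real.rpow_pos_of_pos hN _
      have h8 := mul_le_mul_of_nonneg_left h4 h7.le
      rw [← h5] at h8
      have h9 : ((z : ℝ) + 1) ^ (1 - t) * (1 + (1 - t) * -(1 / ((z : ℝ) + 1))) =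
          ((z : ℝ) + 1) ^ (1 - t) - (1 - t) * ((z : ℝ) + 1) ^ (-t) := by
        rw [h6]
        field_simp
        ring
      rw [h9] at h8
      linarith
    have h10 : (z : ℝ) ^ (1 - t) / (1 - t) + ((z : ℝ) + 1) ^ (-t) ≤ ((z : ℝ) + 1) ^ (1 - t) / (1 - t) := by
      rw [← sub_nonneg]
      have h11 : ((z : ℝ) + 1) ^ (1 - t) / (1 - t) - ((z : ℝ) ^ (1 - t) / (1 - t) + ((z : ℝ) + 1) ^ (-t)) =
          (((z : ℝ) + 1) ^ (1 - t) - ((z : ℝ) ^ (1 - t) + (1 - t) * ((z : ℝ) + 1) ^ (-t))) / (1 - t) := by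
        field_simp
      rw [h11]
      apply div_nonneg _ hu.le
      linarith
    push_cast
    linarith

/-- Rankin bound -/
theorem rankin (t : ℝ) (ht0 : 0 < t) (ht1 : t < 1) (z : ℕ) :
    ∑ S ∈ (PP z).powerset, ((∏ p ∈ S, p : ℕ) : ℝ) ^ (-t) ≤ Real.exp ((z : ℝ) ^ (1 - t) / (1 - t)) := by
  classical
  have h1 : ∑ S ∈ (PP z).powerset, ((∏ p ∈ S, p : ℕ) : ℝ) ^ (-t) =
      ∏ p ∈ PP z, (1 + (p : ℝ) ^ (-t)) := by
    rw [prod_one_add]
    apply sum_congr rfl
    intro S _
    push_cast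
    rw [Real.finsetProd_rpow]
    intro i _
    positivity
  rw [h1]
  have h2 : ∏ p ∈ PP z, (1 + (p : ℝ) ^ (-t)) ≤ Real.exp (∑ p ∈ PP z, (p : ℝ) ^ (-t)) :=
    Real.prod_one_add_le_exp_sum (PP z) (f := fun p : ℕ => (p : ℝ) ^ (-t)) (fun p => by positivity)
  refine h2.trans (Real.exp_le_exp.mpr ?_)
  refine le_trans ?_ (sum_rpow_le t ht0 ht1 z)
  have h3 : ∑ n ∈ range z, ((n : ℝ) + 1) ^ (-t) = ∑ n ∈ Ico 1 (z + 1), (n : ℝ) ^ (-t) := by
    rw [Finset.sum_Ico_eq_sum_range]
    simp only [Nat.add_sub_cancel]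
    apply sum_congr rfl
    intro n _
    congr 1
    push_cast
    ring
  rw [h3]
  apply sum_le_sum_of_subset_of_nonneg
  · intro p hp
    have := mem_Icc.mp (mem_filter.mp hp).1
    exact mem_Ico.mpr ⟨by omega, by omega⟩
  · intro p _ _
    positivity

theorem VV_lower (z : ℕ) (hz : 1 ≤ z) : 1 / (z : ℝ) ≤ ∏ p ∈ PP z, (1 - 1 / (p : ℝ)) := by
  induction z with
  | zero => omega
  | succ z ih =>
    rcases Nat.eq_zero_or_pos z with h0 | h0
    · subst h0
      have h1 : PP (0 + 1) = ∅ := by decide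
      rw [h1]
      simp
    · have h1 := ih h0
      have hz0 : (0 : ℝ) < z := by exact_mod_cast h0
      by_cases hp : (z + 1).Prime ∧ 5 ≤ z + 1
      · have h2 : PP (z + 1) = insert (z + 1) (PP z) := by
          unfold PP
          ext q
          simp only [mem_filter, mem_Icc, mem_insert]
          constructor
          · rintro ⟨⟨a, b⟩, c⟩
            by_cases hq : q = z + 1
            · left; exact hq
            · right; exact ⟨⟨a, by omega⟩, c⟩
          · rintro (rfl | ⟨⟨a, b⟩, c⟩)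
            · exact ⟨⟨hp.2, le_refl _⟩, hp.1⟩
            · exact ⟨⟨a, by omega⟩, c⟩
        have h3 : z + 1 ∉ PP z := by
          unfold PP
          simp
        rw [h2, prod_insert h3]
        have h4 : (0 : ℝ) ≤ 1 - 1 / ((z + 1 : ℕ) : ℝ) := by
          rw [sub_nonneg, div_le_one (by positivity)]
          push_cast
          linarith
        have h5 := mul_le_mul_of_nonneg_left h1 h4
        refine le_trans (le_of_eq ?_) h5
        push_cast
        field_simp
        ring
      · have h2 : PP (z + 1) = PP z := by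
          unfold PP
          ext q
          simp only [mem_filter, mem_Icc]
          constructor
          · rintro ⟨⟨a, b⟩, c⟩
            have hq : q ≠ z + 1 := by
              rintro rfl
              exact hp ⟨c, a⟩
            exact ⟨⟨a, by omega⟩, c⟩
          · rintro ⟨⟨a, b⟩, c⟩
            exact ⟨⟨a, by omega⟩, c⟩
        rw [h2]
        refine le_trans ?_ h1
        apply one_div_le_one_div_of_le hz0
        push_cast
        linarith

theorem VV_pos (z : ℕ) (hz : 1 ≤ z) : 0 < ∏ p ∈ PP z, (1 - 1 / (p : ℝ)) := by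
  have h := VV_lower z hz
  have h2 : (0 : ℝ) < 1 / z := by
    have : (0 : ℝ) < z := by exact_mod_cast hz
    positivity
  linarith

/-- The Mertens product over all primes up to z. -/
noncomputable def WW (z : ℕ) : ℝ := ∏ p ∈ (range (z + 1)).filter Nat.Prime, (1 - 1 / (p : ℝ))

theorem WW_eq (z : ℕ) (hz : 3 ≤ z) : ∏ p ∈ PP z, (1 - 1 / (p : ℝ)) = 3 * WW z := by
  unfold WW
  have h1 : (range (z + 1)).filter Nat.Prime = insert 2 (insert 3 (PP z)) := by
    unfold PP
    ext q
    simp only [mem_filter, mem_range, mem_Icc, mem_insert]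
    constructor
    · rintro ⟨a, b⟩
      by_cases h5 : 5 ≤ q
      · right; right; exact ⟨⟨h5, by omega⟩, b⟩
      · have h2 := b.two_le
        have h4 : q ≠ 4 := by
          rintro rfl
          exact absurd b (by norm_num)
        omega
    · rintro (rfl | rfl | ⟨⟨a, b⟩, c⟩)
      · exact ⟨by omega, Nat.prime_two⟩
      · exact ⟨by omega, Nat.prime_three⟩
      · exact ⟨by omega, c⟩
  have h2 : (3 : ℕ) ∉ PP z := by
    unfold PP
    simp
  have h3 : (2 : ℕ) ∉ insert 3 (PP z) := by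
    unfold PP
    simp
  rw [h1, prod_insert h3, prod_insert h2]
  push_cast
  ring

end Pool.Agent.Odious24
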