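import Mathlib
import Pool.Agent.Helper24.Odious.Rankin

set_option autoImplicit false

namespace Pool.Agent.Odious24

open Finset Filter

theorem ev_rpow (a b C c : ℝ) (hab : a < b) (hc : 0 < c) :
    ∀ᶠ L : ℝ in atTop, C * L ^ a ≤ c * L ^ b := by
  have h1 : Tendsto (fun x : ℝ => C * x ^ (-(b - a))) atTop (nhds (C * 0)) :=
    (tendsto_rpow_neg_atTop (by linarith : 0 < b - a)).const_mul C
  rw [mul_zero] at h1
  have h2 : ∀ᶠ L : ℝ in atTop, C * L ^ (-(b - a)) < c := h1.eventually (gt_mem_nhds hc)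
  filter_upwards [h2, eventually_gt_atTop 0] with L hL hL0
  have h3 : L ^ a = L ^ (-(b - a)) * L ^ b := by
    rw [← Real.rpow_add hL0]
    congr 1
    ring
  rw [h3, ← mul_assoc]
  exact mul_le_mul_of_nonneg_right hL.le (Real.rpow_nonneg hL0.le _)

theorem ev_const (b C c : ℝ) (hb : 0 < b) (hc : 0 < c) :
    ∀ᶠ L : ℝ in atTop, C ≤ c * L ^ b := by
  have h := ev_rpow 0 b C c hb hc
  filter_upwards [h] with L hL
  simpa using hL

theorem ev_log (b C c : ℝ) (hb : 0 < b) (hc : 0 < c) (hC : 0 ≤ C) :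
    ∀ᶠ L : ℝ in atTop, C * Real.log L ≤ c * L ^ b := by
  have h := ev_rpow (b / 2) b (C / (b / 2)) c (by linarith) hc
  filter_upwards [h, eventually_gt_atTop 0] with L hL hL0
  have h1 := Real.log_le_rpow_div hL0.le (show 0 < b / 2 by linarith)
  have h2 := mul_le_mul_of_nonneg_left h1 hC
  have h3 : C * (L ^ (b / 2) / (b / 2)) = C / (b / 2) * L ^ (b / 2) := by ring
  linarith

/-- the error bound before the asymptotic step -/
theorem error_raw (κ η : ℝ) (hη0 : 0 < η) (hη1 : η ≤ 1 / 4) (x z : ℕ) (hz : 3 ≤ z)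
    (hx : 1 ≤ x) (hL : 2916 ≤ Real.log x) (hzx : (z : ℝ) ≤ (Real.log x) ^ κ) :
    |((FF x z : ℤ) : ℝ) - (FF x 3 : ℤ) * ∏ p ∈ PP z, (1 - 1 / (p : ℝ))| ≤
      132 * ((x : ℝ) ^ (lam - η / 4) *
        Real.exp ((Real.log x) ^ (κ * (1 - (th - η))) / (1 - (th - η)))) +
      170 * ((x : ℝ) ^ lam * Real.exp (-(Real.sqrt (Real.log x)) / 10800) *
        Real.exp ((Real.log x) ^ (κ * (1 - 159 / 200)) / (1 - 159 / 200))) := by
  set L := Real.log x with hLdef
  have hx' : (0 : ℝ) < x := by exact_mod_cast hx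
  have hL0 : 0 < L := by linarith
  have hth := th_pos
  have hth2 := th_lt
  set q := Real.sqrt L / 54 with hq
  have hsq : Real.sqrt L ^ 2 = L := Real.sq_sqrt hL0.le
  have hs54 : 54 ≤ Real.sqrt L := by
    apply Real.le_sqrt_of_sq_le
    norm_num
    linarith
  have hq1 : 1 ≤ q := by
    rw [hq, le_div_iff₀ (by norm_num)]
    linarith
  set Q := Real.exp q with hQdef
  set E := Real.exp (-(Real.sqrt L) / 10800) with hEdef
  set k := Nat.log 2 x + 1 with hk
  have hxk : x < 2 ^ k := Nat.lt_pow_succ_log_self (by norm_num) x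
  have hk2 : 2 ^ k ≤ 2 * x := by
    have := Nat.pow_log_le_self 2 (x := x) (by omega)
    rw [hk, pow_succ]
    omega
  have hlog2 : Real.log 2 ≤ 1 := by
    have := Real.log_two_lt_d9
    linarith
  have hlog2' : (69 / 100 : ℝ) ≤ Real.log 2 := by
    have := Real.log_two_gt_d9
    linarith
  have hkL : L ≤ k := by
    have h1 : (x : ℝ) ≤ 2 ^ k := by exact_mod_cast hxk.le
    have h2 := Real.log_le_log hx' h1
    rw [Real.log_pow] at h2
    have h3 : (k : ℝ) * Real.log 2 ≤ k * 1 := mul_le_mul_of_nonneg_left hlog2 (by positivity)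
    linarith
  have hQ1 : 1 ≤ Q := Real.one_le_exp (by linarith)
  have hE1 : Q ^ (-(1 / 200) : ℝ) ≤ E := by
    rw [hQdef, hEdef, ← Real.exp_mul]
    apply Real.exp_le_exp.mpr
    rw [hq]
    linarith
  have hE2 : ∀ e : ℕ, 0 < e → (e : ℝ) ≤ Q →
      Q * Real.exp (-(k : ℝ) / (216 * (2 * Nat.log 2 e + 3))) ≤ E := by
    intro e he heQ
    have he' : (0 : ℝ) < e := by exact_mod_cast he
    have h1 : (Nat.log 2 e : ℝ) * Real.log 2 ≤ q := by
      have h2 : 2 ^ (Nat.log 2 e) ≤ e := Nat.pow_log_le_self 2 he.ne'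
      have h3 : ((2 : ℝ) ^ (Nat.log 2 e)) ≤ e := by exact_mod_cast h2
      have h4 : Real.log ((2 : ℝ) ^ (Nat.log 2 e)) ≤ Real.log Q :=
        Real.log_le_log (by positivity) (h3.trans heQ)
      rw [Real.log_pow, hQdef, Real.log_exp] at h4
      exact h4
    have h2 : (Nat.log 2 e : ℝ) ≤ 3 / 2 * q := by
      have h3 : (Nat.log 2 e : ℝ) * (69 / 100) ≤ q :=
        le_trans (mul_le_mul_of_nonneg_left hlog2' (by positivity)) h1
      linarith
    have h3 : 216 * (2 * (Nat.log 2 e : ℝ) + 3) ≤ 24 * Real.sqrt L := by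
      have h4 : Real.sqrt L = 54 * q := by rw [hq]; ring
      rw [h4]
      linarith
    have h4 : Real.sqrt L / 24 ≤ (k : ℝ) / (216 * (2 * Nat.log 2 e + 3)) := by
      rw [div_le_div_iff₀ (by norm_num) (by positivity)]
      have h5 : Real.sqrt L * (216 * (2 * (Nat.log 2 e : ℝ) + 3)) ≤ Real.sqrt L * (24 * Real.sqrt L) :=
        mul_le_mul_of_nonneg_left h3 (Real.sqrt_nonneg _)
      nlinarith
    rw [hQdef, ← Real.exp_add, hEdef]
    apply Real.exp_le_exp.mpr
    have h5 : -(k : ℝ) / (216 * (2 * (Nat.log 2 e : ℝ) + 3)) = -((k : ℝ) / (216 * (2 * Nat.log 2 e + 3))) := by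
      ring
    rw [h5, hq]
    linarith
  refine (FF_sub_le x z hz).trans ?_
  have hper : ∀ S ∈ (PP z).powerset, ‖RR x (∏ p ∈ S, p)‖ ≤
      132 * ((x : ℝ) ^ (lam - η / 4) * ((∏ p ∈ S, p : ℕ) : ℝ) ^ (-(th - η))) +
      170 * ((x : ℝ) ^ lam * E * ((∏ p ∈ S, p : ℕ) : ℝ) ^ (-(159 / 200) : ℝ)) := by
    intro S hS
    have hS' := mem_powerset.mp hS
    exact RR_bound η hη0 hη1 x k _ hx hxk hk2 (prod_pos_of_subset hS') (coprime_six_of_subset hS')
      Q E hQ1 hE1 hE2
  refine (sum_le_sum hper).trans ?_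
  rw [sum_add_distrib, ← mul_sum, ← mul_sum, ← mul_sum, ← mul_sum]
  have r1 := rankin (th - η) (by linarith) (by linarith) z
  have r2 := rankin (159 / 200) (by norm_num) (by norm_num) z
  have hz0 : (0 : ℝ) ≤ z := by positivity
  have e1 : (z : ℝ) ^ (1 - (th - η)) ≤ L ^ (κ * (1 - (th - η))) := by
    rw [Real.rpow_mul hL0.le]
    exact Real.rpow_le_rpow hz0 hzx (by linarith)
  have e2 : (z : ℝ) ^ (1 - 159 / 200 : ℝ) ≤ L ^ (κ * (1 - 159 / 200)) := by
    rw [Real.rpow_mul hL0.le]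
    exact Real.rpow_le_rpow hz0 hzx (by norm_num)
  have f1 : Real.exp ((z : ℝ) ^ (1 - (th - η)) / (1 - (th - η))) ≤
      Real.exp (L ^ (κ * (1 - (th - η))) / (1 - (th - η))) := by
    apply Real.exp_le_exp.mpr
    apply div_le_div_of_nonneg_right e1 (by linarith)
  have f2 : Real.exp ((z : ℝ) ^ (1 - 159 / 200 : ℝ) / (1 - 159 / 200)) ≤
      Real.exp (L ^ (κ * (1 - 159 / 200)) / (1 - 159 / 200)) := by
    apply Real.exp_le_exp.mpr
    apply div_le_div_of_nonneg_right e2 (by norm_num)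
  have g1 := r1.trans f1
  have g2 := r2.trans f2
  have p1 : (0 : ℝ) ≤ (x : ℝ) ^ (lam - η / 4) := by positivity
  have p2 : (0 : ℝ) ≤ (x : ℝ) ^ lam * E := by positivity
  have q1 := mul_le_mul_of_nonneg_left g1 p1
  have q2 := mul_le_mul_of_nonneg_left g2 p2
  linarith

theorem exists_eta (κ : ℝ) (hκ0 : 2 ≤ κ) (hκ : κ < 1 / (2 - Real.log 3 / Real.log 2)) :
    ∃ η : ℝ, 0 < η ∧ η ≤ 1 / 4 ∧ κ * (1 - (th - η)) < 1 := by
  have hth := th_pos
  have hth2 := th_lt
  have h1 : 2 - Real.log 3 / Real.log 2 = 1 - th := by unfold th; ring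
  rw [h1, lt_div_iff₀ (by linarith)] at hκ
  refine ⟨min (1 / 4) ((1 - κ * (1 - th)) / (2 * κ)), ?_, min_le_left _ _, ?_⟩
  · apply lt_min (by norm_num)
    apply div_pos (by linarith) (by linarith)
  · have h2 := min_le_right (1 / 4 : ℝ) ((1 - κ * (1 - th)) / (2 * κ))
    have h3 := mul_le_mul_of_nonneg_left h2 (show 0 ≤ κ by linarith)
    have h4 : κ * ((1 - κ * (1 - th)) / (2 * κ)) = (1 - κ * (1 - th)) / 2 := by
      field_simp
    rw [h4] at h3
    nlinarith

theorem kappa_lt (κ : ℝ) (hκ : κ < 1 / (2 - Real.log 3 / Real.log 2)) : κ < 17 / 7 := by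
  have hth2 := th_lt
  have h1 : 2 - Real.log 3 / Real.log 2 = 1 - th := by unfold th; ring
  rw [h1] at hκ
  refine hκ.trans ?_
  rw [div_lt_div_iff₀ (by linarith) (by norm_num)]
  linarith

/-- The error term. -/
theorem error_bound (κ : ℝ) (hκ0 : 2 ≤ κ) (hκ : κ < 1 / (2 - Real.log 3 / Real.log 2)) :
    ∀ᶠ x : ℕ in atTop, ∀ z : ℕ, 3 ≤ z → (z : ℝ) ≤ (Real.log x) ^ κ →
      |((FF x z : ℤ) : ℝ) - (FF x 3 : ℤ) * ∏ p ∈ PP z, (1 - 1 / (p : ℝ))| ≤
        (x : ℝ) ^ lam * Real.exp (-(Real.sqrt (Real.log x)) / 20000) ∧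
      Real.exp (-(Real.sqrt (Real.log x)) / 20000) ≤ 1 / 80 * (1 / (z : ℝ)) := by
  obtain ⟨η, hη0, hη1, hη2⟩ := exists_eta κ hκ0 hκ
  have hκ3 := kappa_lt κ hκ
  have hth := th_pos
  have hth2 := th_lt
  set s := 1 - (th - η) with hs
  have hs0 : 0 < s := by rw [hs]; linarith
  have hlog : Tendsto (fun x : ℕ => Real.log x) atTop atTop :=
    Real.tendsto_log_atTop.comp tendsto_natCast_atTop_atTop
  have E1 : ∀ᶠ L : ℝ in atTop, 2916 ≤ L := eventually_ge_atTop 2916
  have E2 : ∀ᶠ L : ℝ in atTop, 1 / s * L ^ (κ * s) ≤ (η / 16) * L ^ (1 : ℝ) :=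
    ev_rpow _ _ _ _ hη2 (by positivity)
  have E3 : ∀ᶠ L : ℝ in atTop, 6 ≤ (η / 16) * L ^ (1 : ℝ) := ev_const _ _ _ (by norm_num) (by positivity)
  have E4 : ∀ᶠ L : ℝ in atTop, 1 / 20000 * L ^ (1 / 2 : ℝ) ≤ (η / 16) * L ^ (1 : ℝ) :=
    ev_rpow _ _ _ _ (by norm_num) (by positivity)
  have E5 : ∀ᶠ L : ℝ in atTop, (1 / (1 - 159 / 200)) * L ^ (κ * (1 - 159 / 200)) ≤
      (1 / 60000) * L ^ (1 / 2 : ℝ) := ev_rpow _ _ _ _ (by linarith) (by norm_num)
  have E6 : ∀ᶠ L : ℝ in atTop, 6 ≤ (1 / 60000) * L ^ (1 / 2 : ℝ) :=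
    ev_const _ _ _ (by norm_num) (by norm_num)
  have E7 : ∀ᶠ L : ℝ in atTop, κ * Real.log L ≤ (1 / 60000) * L ^ (1 / 2 : ℝ) :=
    ev_log _ _ _ (by norm_num) (by norm_num) (by linarith)
  have hall := hlog.eventually (E1.and (E2.and (E3.and (E4.and (E5.and (E6.and E7))))))
  filter_upwards [hall, eventually_ge_atTop 1] with x hx hx1 z hz hzx
  obtain ⟨h1, h2, h3, h4, h5, h6, h7⟩ := hx
  have hx' : (0 : ℝ) < x := by exact_mod_cast hx1
  set L := Real.log x with hLdef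
  have hL0 : 0 < L := by linarith
  rw [Real.rpow_one] at h2 h3 h4
  rw [← Real.sqrt_eq_rpow] at h4 h5 h6 h7
  have hraw := error_raw κ η hη0 hη1 x z hz hx1 h1 hzx
  rw [← hs, ← hLdef] at hraw
  have hexp6 : (340 : ℝ) ≤ Real.exp 6 := by
    have h8 : (2.7 : ℝ) ≤ Real.exp 1 := by
      have := Real.exp_one_gt_d9
      linarith
    have h9 : Real.exp 6 = Real.exp 1 ^ 6 := by
      rw [← Real.exp_nat_mul]; norm_num
    rw [h9]
    calc (340 : ℝ) ≤ 2.7 ^ 6 := by norm_num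
      _ ≤ Real.exp 1 ^ 6 := pow_le_pow_left₀ (by norm_num) h8 6
  have hxl : (0 : ℝ) < (x : ℝ) ^ lam := Real.rpow_pos_of_pos hx' _
  constructor
  · refine hraw.trans ?_
    have t1 : 132 * ((x : ℝ) ^ (lam - η / 4) * Real.exp (L ^ (κ * s) / s)) ≤
        1 / 2 * ((x : ℝ) ^ lam * Real.exp (-(Real.sqrt L) / 20000)) := by
      have e1 : (x : ℝ) ^ (lam - η / 4) = (x : ℝ) ^ lam * Real.exp (-(η / 4 * L)) := by
        rw [Real.rpow_sub hx', Real.rpow_def_of_pos hx' (η / 4), ← hLdef, Real.exp_neg,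
          div_eq_mul_inv]
        congr 3
        ring
      rw [e1]
      have e2 : 340 * (Real.exp (-(η / 4 * L)) * Real.exp (L ^ (κ * s) / s)) ≤
          Real.exp (-(Real.sqrt L) / 20000) := by
        calc 340 * (Real.exp (-(η / 4 * L)) * Real.exp (L ^ (κ * s) / s))
            ≤ Real.exp 6 * (Real.exp (-(η / 4 * L)) * Real.exp (L ^ (κ * s) / s)) :=
              mul_le_mul_of_nonneg_right hexp6 (by positivity)
          _ = Real.exp (6 + (-(η / 4 * L) + L ^ (κ * s) / s)) := by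
              rw [Real.exp_add, Real.exp_add]
          _ ≤ Real.exp (-(Real.sqrt L) / 20000) := by
              apply Real.exp_le_exp.mpr
              have e3 : L ^ (κ * s) / s = 1 / s * L ^ (κ * s) := by ring
              rw [e3]
              linarith
      have e3 : 0 < Real.exp (-(η / 4 * L)) * Real.exp (L ^ (κ * s) / s) := by positivity
      have e4 : 132 * (Real.exp (-(η / 4 * L)) * Real.exp (L ^ (κ * s) / s)) ≤
          1 / 2 * Real.exp (-(Real.sqrt L) / 20000) := by linarith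
      have e5 := mul_le_mul_of_nonneg_left e4 hxl.le
      calc _ = (x : ℝ) ^ lam * (132 * (Real.exp (-(η / 4 * L)) * Real.exp (L ^ (κ * s) / s))) := by ring
        _ ≤ _ := e5
        _ = _ := by ring
    have t2 : 170 * ((x : ℝ) ^ lam * Real.exp (-(Real.sqrt L) / 10800) *
        Real.exp (L ^ (κ * (1 - 159 / 200)) / (1 - 159 / 200))) ≤
        1 / 2 * ((x : ℝ) ^ lam * Real.exp (-(Real.sqrt L) / 20000)) := by
      have e2 : 340 * (Real.exp (-(Real.sqrt L) / 10800) *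
          Real.exp (L ^ (κ * (1 - 159 / 200)) / (1 - 159 / 200))) ≤
          Real.exp (-(Real.sqrt L) / 20000) := by
        calc 340 * (Real.exp (-(Real.sqrt L) / 10800) *
              Real.exp (L ^ (κ * (1 - 159 / 200)) / (1 - 159 / 200)))
            ≤ Real.exp 6 * (Real.exp (-(Real.sqrt L) / 10800) *
              Real.exp (L ^ (κ * (1 - 159 / 200)) / (1 - 159 / 200))) :=
              mul_le_mul_of_nonneg_right hexp6 (by positivity)
          _ = Real.exp (6 + (-(Real.sqrt L) / 10800 + L ^ (κ * (1 - 159 / 200)) / (1 - 159 / 200))) := by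
              rw [Real.exp_add, Real.exp_add]
          _ ≤ Real.exp (-(Real.sqrt L) / 20000) := by
              apply Real.exp_le_exp.mpr
              have e3 : L ^ (κ * (1 - 159 / 200)) / (1 - 159 / 200) =
                  (1 / (1 - 159 / 200)) * L ^ (κ * (1 - 159 / 200)) := by ring
              rw [e3]
              have e4 := Real.sqrt_nonneg L
              linarith
      have e4 : 170 * (Real.exp (-(Real.sqrt L) / 10800) *
          Real.exp (L ^ (κ * (1 - 159 / 200)) / (1 - 159 / 200))) ≤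
          1 / 2 * Real.exp (-(Real.sqrt L) / 20000) := by linarith
      have e5 := mul_le_mul_of_nonneg_left e4 hxl.le
      calc _ = (x : ℝ) ^ lam * (170 * (Real.exp (-(Real.sqrt L) / 10800) *
          Real.exp (L ^ (κ * (1 - 159 / 200)) / (1 - 159 / 200)))) := by ring
        _ ≤ _ := e5
        _ = _ := by ring
    linarith
  · have hz0 : (0 : ℝ) < z := by
      have : 0 < z := by omega
      exact_mod_cast this
    have hLk : (0 : ℝ) < L ^ κ := Real.rpow_pos_of_pos hL0 _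
    have e1 : 1 / (L ^ κ) ≤ 1 / (z : ℝ) := one_div_le_one_div_of_le hz0 hzx
    have e2 : Real.exp (-(Real.sqrt L) / 20000) ≤ 1 / 80 * (1 / (L ^ κ)) := by
      rw [Real.rpow_def_of_pos hL0, one_div (Real.exp _), ← Real.exp_neg]
      have e3 : (80 : ℝ) ≤ Real.exp 6 := by linarith
      have e4 : Real.exp (-(Real.sqrt L) / 20000) ≤ Real.exp (-6 + -(Real.log L * κ)) := by
        apply Real.exp_le_exp.mpr
        linarith
      rw [Real.exp_add] at e4
      have e5 : Real.exp (-6) ≤ 1 / 80 := by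
        rw [Real.exp_neg, ← one_div]
        exact one_div_le_one_div_of_le (by norm_num) e3
      exact e4.trans (mul_le_mul_of_nonneg_right e5 (Real.exp_pos _).le)
    linarith

/-- The final estimate. -/
theorem final (κ : ℝ) (hκ : κ < 1 / (2 - Real.log 3 / Real.log 2)) :
    ∃ X : ℕ, ∀ x z : ℕ, X ≤ x → 3 ≤ z → (z : ℝ) ≤ (Real.log x) ^ κ →
      3 / 80 * (x : ℝ) ^ (Real.log 3 / Real.log 4) * WW z ≤ (FF x z : ℤ) ∧
      ((FF x z : ℤ) : ℝ) ≤ 10 * (x : ℝ) ^ (Real.log 3 / Real.log 4) * WW z ∧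
      |((FF x z : ℤ) : ℝ) - 3 * WW z * (FF x 3 : ℤ)| ≤
        (x : ℝ) ^ (Real.log 3 / Real.log 4) * Real.exp (-(Real.sqrt (Real.log x)) / 20000) := by
  have hth := th_pos
  have hth2 := th_lt
  set κ' := max κ 2 with hκ'
  have h2 : (2 : ℝ) < 1 / (2 - Real.log 3 / Real.log 2) := by
    have h1 : 2 - Real.log 3 / Real.log 2 = 1 - th := by unfold th; ring
    rw [h1, lt_div_iff₀ (by linarith)]
    linarith
  have h3 := error_bound κ' (le_max_right _ _) (max_lt hκ h2)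
  have hlog : Tendsto (fun x : ℕ => Real.log x) atTop atTop :=
    Real.tendsto_log_atTop.comp tendsto_natCast_atTop_atTop
  have h4 : ∀ᶠ x : ℕ in atTop, 1 ≤ Real.log x := hlog.eventually (eventually_ge_atTop 1)
  have h5 := (h3.and (h4.and (eventually_ge_atTop 10)))
  obtain ⟨X, hX⟩ := eventually_atTop.mp h5
  refine ⟨X, ?_⟩
  intro x z hx hz hzx
  obtain ⟨g1, g2, g3⟩ := hX x hx
  have hzx' : (z : ℝ) ≤ (Real.log x) ^ κ' :=
    hzx.trans (Real.rpow_le_rpow_of_exponent_le g2 (le_max_left _ _))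
  obtain ⟨b1, b2⟩ := g1 z hz hzx'
  have l1 := FF_three_lower x g3
  have l2 := FF_three_upper x (by omega)
  have v1 := VV_lower z (by omega)
  have hV := VV_pos z (by omega)
  have hlam : Real.log 3 / Real.log 4 = lam := rfl
  rw [hlam]
  rw [WW_eq z hz] at b1 v1 hV
  set V := 3 * WW z with hVdef
  set Y := (x : ℝ) ^ lam with hY
  have hY0 : 0 < Y := by
    have : (0 : ℝ) < x := by
      have : 0 < x := by omega
      exact_mod_cast this
    exact Real.rpow_pos_of_pos this _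
  set e := Real.exp (-(Real.sqrt (Real.log x)) / 20000) with he
  have e1 : e ≤ 1 / 80 * V := by linarith
  have e2 : Y * e ≤ Y * (1 / 80 * V) := mul_le_mul_of_nonneg_left e1 hY0.le
  have e3 := abs_le.mp b1
  have e4 : 1 / 40 * Y * V ≤ (FF x 3 : ℤ) * V := mul_le_mul_of_nonneg_right l1 hV.le
  have e5 : ((FF x 3 : ℤ) : ℝ) * V ≤ 3 * Y * V := mul_le_mul_of_nonneg_right l2 hV.le
  have e6 : WW z = V / 3 := by rw [hVdef]; ring
  have e7 : 0 < Y * V := mul_pos hY0 hV
  refine ⟨?_, ?_, ?_⟩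
  · rw [e6]
    linarith [e3.1]
  · rw [e6]
    linarith [e3.2]
  · rw [mul_comm V]
    exact b1

end Pool.Agent.Odious24
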